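import Pool.Agent.Helper888_Pseudo.Defs

/-!
# Basic facts on wiring diagrams
-/

namespace Pool.Agent.Helper888

namespace Arrangement

open Finset

variable {n : ℕ} (A : Arrangement n)

/-- the vertex `t` closes the gap `j` -/
def Cov (t j : ℕ) : Prop := A.lo t < j ∧ j ≤ A.hi t

instance (t j : ℕ) : Decidable (A.Cov t j) := by unfold Cov; infer_instance

/-- reversal of the block of the vertex `t` -/
def rev (t p : ℕ) : ℕ := if A.lo t ≤ p ∧ p ≤ A.hi t then A.lo t + A.hi t - p else p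

lemma rev_lt {t : ℕ} (ht : t < A.m) {p : ℕ} (hp : p < n) : A.rev t p < n := by
  have h := A.block t ht
  unfold rev; split_ifs <;> omega

lemma rev_rev {t : ℕ} (p : ℕ) : A.rev t (A.rev t p) = p := by
  unfold rev; split_ifs <;> omega

lemma wire_succ {t : ℕ} (ht : t < A.m) {p : ℕ} (hp : p < n) :
    A.wire (t + 1) p = A.wire t (A.rev t p) := by
  unfold rev
  split_ifs with h
  · exact A.inside t ht p h.1 h.2
  · exact A.outside t ht p hp (by omega)

lemma wire_succ_rev {t : ℕ} (ht : t < A.m) {p : ℕ} (hp : p < n) :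
    A.wire (t + 1) (A.rev t p) = A.wire t p := by
  rw [A.wire_succ ht (A.rev_lt ht hp), rev_rev]

lemma wire_lt {t : ℕ} (ht : t ≤ A.m) : ∀ {p : ℕ}, p < n → A.wire t p < n := by
  induction t with
  | zero => intro p hp; rw [A.start p hp]; exact hp
  | succ t ih =>
    intro p hp
    rw [A.wire_succ ht hp]
    exact ih (Nat.le_of_succ_le ht) (A.rev_lt ht hp)

lemma wire_inj {t : ℕ} (ht : t ≤ A.m) : ∀ {p q : ℕ}, p < n → q < n →
    A.wire t p = A.wire t q → p = q := by
  induction t with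
  | zero => intro p q hp hq h; rwa [A.start p hp, A.start q hq] at h
  | succ t ih =>
    intro p q hp hq h
    rw [A.wire_succ ht hp, A.wire_succ ht hq] at h
    have := ih (Nat.le_of_succ_le ht) (A.rev_lt ht hp) (A.rev_lt ht hq) h
    rw [← A.rev_rev (t := t) p, this, A.rev_rev]

lemma wire_surj {t : ℕ} (ht : t ≤ A.m) : ∀ {x : ℕ}, x < n → ∃ p < n, A.wire t p = x := by
  induction t with
  | zero => intro x hx; exact ⟨x, hx, A.start x hx⟩
  | succ t ih =>
    intro x hx
    obtain ⟨p, hp, h⟩ := ih (Nat.le_of_succ_le ht) hx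
    exact ⟨A.rev t p, A.rev_lt ht hp, by rw [A.wire_succ_rev ht hp, h]⟩

lemma mem_above {t j x : ℕ} : x ∈ A.above t j ↔ ∃ p < j, A.wire t p = x := by
  simp [above]

lemma wire_mem_above {t : ℕ} (ht : t ≤ A.m) {p j : ℕ} (hp : p < n) (hj : j ≤ n) :
    A.wire t p ∈ A.above t j ↔ p < j := by
  rw [mem_above]
  constructor
  · rintro ⟨q, hq, h⟩
    have := A.wire_inj ht (by omega) hp h
    omega
  · intro h; exact ⟨p, h, rfl⟩

lemma above_subset {t : ℕ} (ht : t ≤ A.m) {j : ℕ} (hj : j ≤ n) : A.above t j ⊆ range n := by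
  intro x hx
  obtain ⟨p, hp, rfl⟩ := A.mem_above.1 hx
  exact mem_range.2 (A.wire_lt ht (by omega))

lemma card_above {t : ℕ} (ht : t ≤ A.m) {j : ℕ} (hj : j ≤ n) : (A.above t j).card = j := by
  unfold above
  rw [card_image_of_injOn, card_range]
  intro p hp q hq h
  simp only [coe_range, Set.mem_Iio] at hp hq
  exact A.wire_inj ht (by omega) (by omega) h

lemma above_succ {t : ℕ} (ht : t < A.m) {j : ℕ} (hj : j ≤ n) (hc : ¬ A.Cov t j) :
    A.above (t + 1) j = A.above t j := by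
  have hb := A.block t ht
  have key : ∀ p, p < j → A.rev t p < j := by
    intro p hp; unfold Cov at hc; unfold rev; split_ifs <;> omega
  ext x
  rw [mem_above, mem_above]
  constructor
  · rintro ⟨p, hp, rfl⟩
    exact ⟨A.rev t p, key p hp, (A.wire_succ ht (by omega)).symm⟩
  · rintro ⟨p, hp, rfl⟩
    exact ⟨A.rev t p, key p hp, A.wire_succ_rev ht (by omega)⟩

lemma above_zero {j : ℕ} (hj : j ≤ n) : A.above 0 j = range j := by
  ext x
  rw [mem_above, mem_range]
  constructor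
  · rintro ⟨p, hp, rfl⟩; rw [A.start p (by omega)]; exact hp
  · intro h; exact ⟨x, h, A.start x (by omega)⟩

lemma mem_above_end {j x : ℕ} (hj : j ≤ n) : x ∈ A.above A.m j ↔ x < n ∧ n ≤ x + j := by
  rw [mem_above]
  constructor
  · rintro ⟨p, hp, rfl⟩; rw [A.finish p (by omega)]; omega
  · intro h; exact ⟨n - 1 - x, by omega, by rw [A.finish _ (by omega)]; omega⟩

/-- the pseudoline `b` is above the pseudoline `a` -/
def Inv (t a b : ℕ) : Prop := ∃ p q, p < q ∧ q < n ∧ A.wire t p = b ∧ A.wire t q = a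

lemma inv_succ {t a b : ℕ} (ht : t < A.m) (hab : a < b) (h : A.Inv t a b) :
    A.Inv (t + 1) a b := by
  obtain ⟨p, q, hpq, hq, hp1, hq1⟩ := h
  have hb := A.block t ht
  refine ⟨A.rev t p, A.rev t q, ?_, A.rev_lt ht hq, ?_, ?_⟩
  · by_cases hh : A.lo t ≤ p ∧ q ≤ A.hi t
    · exfalso
      have := A.once t ht p q hh.1 hpq hh.2
      omega
    · unfold rev; split_ifs <;> omega
  · rw [A.wire_succ_rev ht (by omega), hp1]
  · rw [A.wire_succ_rev ht hq, hq1]

lemma inv_mono {t s a b : ℕ} (hts : t ≤ s) (hs : s ≤ A.m) (hab : a < b) (h : A.Inv t a b) :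
    A.Inv s a b := by
  induction s, hts using Nat.le_induction with
  | base => exact h
  | succ s hs' ih => exact A.inv_succ hs hab (ih (Nat.le_of_succ_le hs))

lemma not_inv {t p q : ℕ} (ht : t ≤ A.m) (hpq : p < q) (hq : q < n) :
    ¬ A.Inv t (A.wire t p) (A.wire t q) := by
  rintro ⟨p', q', h, hq', h1, h2⟩
  have e1 := A.wire_inj ht (by omega) hq h1
  have e2 := A.wire_inj ht hq' (by omega) h2
  omega

lemma inv_mem {t a b j : ℕ} (ht : t ≤ A.m) (hj : j ≤ n) (h : A.Inv t a b)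
    (ha : a ∈ A.above t j) : b ∈ A.above t j := by
  obtain ⟨p, q, hpq, hq, rfl, rfl⟩ := h
  rw [A.wire_mem_above ht hq hj] at ha
  rw [A.wire_mem_above ht (by omega) hj]
  omega

/-- if `b` belongs to `above t j` and `a` does not, then `b` is above `a` -/
lemma inv_of_mem {t a b j : ℕ} (ht : t ≤ A.m) (hj : j ≤ n) (hb : b ∈ A.above t j)
    (ha : a ∉ A.above t j) (han : a < n) : A.Inv t a b := by
  obtain ⟨q, hq, rfl⟩ := A.wire_surj ht han
  obtain ⟨p, hp, rfl⟩ := A.mem_above.1 hb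
  rw [A.wire_mem_above ht hq hj] at ha
  exact ⟨p, q, by omega, hq, rfl, rfl⟩

/-- sum of the labels above the gap `j` -/
def S (t j : ℕ) : ℕ := ∑ p ∈ range j, A.wire t p

lemma S_eq {t j : ℕ} (ht : t ≤ A.m) (hj : j ≤ n) : A.S t j = ∑ x ∈ A.above t j, x := by
  unfold S above
  rw [sum_image]
  intro p hp q hq h
  simp only [coe_range, Set.mem_Iio] at hp hq
  exact A.wire_inj ht (by omega) (by omega) h

lemma S_succ_lt {t j : ℕ} (ht : t < A.m) (hc : A.Cov t j) :
    A.S t j < A.S (t + 1) j := by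
  have hb := A.block t ht
  obtain ⟨h1, h2⟩ := hc
  unfold S
  rw [range_eq_Ico, ← sum_Ico_consecutive _ (Nat.zero_le (A.lo t)) h1.le,
    ← sum_Ico_consecutive _ (Nat.zero_le (A.lo t)) h1.le]
  have e1 : ∑ p ∈ Ico 0 (A.lo t), A.wire (t + 1) p = ∑ p ∈ Ico 0 (A.lo t), A.wire t p := by
    apply sum_congr rfl
    intro p hp
    rw [mem_Ico] at hp
    exact A.outside t ht p (by omega) (Or.inl hp.2)
  have e2 : ∑ p ∈ Ico (A.lo t) j, A.wire (t + 1) p
      = ∑ p ∈ Ico (A.lo t) j, A.wire t (p + (A.hi t + 1 - j)) := by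
    have e3 : ∑ p ∈ Ico (A.lo t) j, A.wire (t + 1) p
        = ∑ p ∈ Ico (A.lo t) j, A.wire t (A.lo t + A.hi t - p) := by
      apply sum_congr rfl
      intro p hp
      rw [mem_Ico] at hp
      exact A.inside t ht p hp.1 (by omega)
    rw [e3, sum_Ico_reflect (fun q => A.wire t q) (A.lo t) (by omega), sum_Ico_add']
    apply sum_congr _ (fun _ _ => rfl)
    congr 1 <;> omega
  rw [e1, e2]
  have : ∑ p ∈ Ico (A.lo t) j, A.wire t p
      < ∑ p ∈ Ico (A.lo t) j, A.wire t (p + (A.hi t + 1 - j)) := by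
    apply sum_lt_sum_of_nonempty (nonempty_Ico.2 h1)
    intro p hp
    rw [mem_Ico] at hp
    exact A.once t ht p _ hp.1 (by omega) (by omega)
  omega

lemma S_succ_eq {t j : ℕ} (ht : t < A.m) (hj : j ≤ n) (hc : ¬ A.Cov t j) :
    A.S (t + 1) j = A.S t j := by
  rw [A.S_eq ht hj, A.S_eq ht.le hj, A.above_succ ht hj hc]

lemma S_mono {t s j : ℕ} (hts : t ≤ s) (hs : s ≤ A.m) (hj : j ≤ n) : A.S t j ≤ A.S s j := by
  induction s, hts using Nat.le_induction with
  | base => exact le_rfl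
  | succ s hs' ih =>
    refine (ih (Nat.le_of_succ_le hs)).trans ?_
    by_cases hc : A.Cov s j
    · exact (A.S_succ_lt hs hc).le
    · exact (A.S_succ_eq hs hj hc).ge

lemma S_lt {t r s j : ℕ} (htr : t ≤ r) (hrs : r < s) (hs : s ≤ A.m) (hj : j ≤ n)
    (hc : A.Cov r j) : A.S t j < A.S s j :=
  ((A.S_mono htr (by omega) hj).trans_lt (A.S_succ_lt (by omega) hc)).trans_le
    (A.S_mono hrs hs hj)

lemma above_const {t s j : ℕ} (hts : t ≤ s) (hs : s ≤ A.m) (hj : j ≤ n)
    (hc : ∀ r, t ≤ r → r < s → ¬ A.Cov r j) : A.above s j = A.above t j := by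
  induction s, hts using Nat.le_induction with
  | base => rfl
  | succ s hs' ih =>
    rw [A.above_succ hs hj (hc s hs' (Nat.lt_succ_self s))]
    exact ih (Nat.le_of_succ_le hs) (fun r h1 h2 => hc r h1 (by omega))

/-- equal sets above two gaps: the gaps have the same number and are not closed in between -/
lemma above_inj {t s j j' : ℕ} (hts : t ≤ s) (hs : s ≤ A.m) (hj : j ≤ n) (hj' : j' ≤ n)
    (h : A.above t j = A.above s j') : j = j' ∧ ∀ r, t ≤ r → r < s → ¬ A.Cov r j := by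
  have hjj : j = j' := by
    have := congrArg Finset.card h
    rwa [A.card_above (hts.trans hs) hj, A.card_above hs hj'] at this
  subst hjj
  refine ⟨rfl, fun r h1 h2 hc => ?_⟩
  have := A.S_lt h1 h2 hs hj hc
  rw [A.S_eq (hts.trans hs) hj, A.S_eq hs hj, h] at this
  exact lt_irrefl _ this

lemma cell_eq_iff {t s j j' : ℕ} (ht : t ≤ A.m) (hs : s ≤ A.m) (hj : j ≤ n) (hj' : j' ≤ n) :
    A.cell t j = A.cell s j' ↔
      A.above t j = A.above s j' ∨ A.above t j = range n \ A.above s j' := by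
  unfold cell
  constructor
  · intro h
    have : A.above t j ∈ ({A.above s j', range n \ A.above s j'} : Finset (Finset ℕ)) := by
      rw [← h]; simp
    simpa using this
  · rintro (h | h)
    · rw [h]
    · rw [h, Finset.sdiff_sdiff_eq_self (A.above_subset hs hj'), pair_comm]

lemma cell_mem {t j : ℕ} (ht : t ≤ A.m) (hj : j ≤ n) : A.cell t j ∈ A.cells := by
  unfold cells
  rw [mem_image]
  exact ⟨(t, j), by simp; omega, rfl⟩

lemma mem_sides {c : Finset (Finset ℕ)} {i : ℕ} : i ∈ A.sides c ↔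
    ∃ t j, t ≤ A.m ∧ j < n ∧ (A.cell t j = c ∨ A.cell t (j + 1) = c) ∧ A.wire t j = i := by
  unfold sides
  simp only [mem_image, mem_filter, mem_product, mem_range, Prod.exists]
  constructor
  · rintro ⟨t, j, ⟨⟨h1, h2⟩, h3⟩, h4⟩; exact ⟨t, j, by omega, h2, h3, h4⟩
  · rintro ⟨t, j, h1, h2, h3, h4⟩; exact ⟨t, j, ⟨⟨by omega, h2⟩, h3⟩, h4⟩

lemma cell_const {t s j : ℕ} (hts : t ≤ s) (hs : s ≤ A.m) (hj : j ≤ n)
    (hc : ∀ r, t ≤ r → r < s → ¬ A.Cov r j) : A.cell s j = A.cell t j := by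
  unfold cell; rw [A.above_const hts hs hj hc]

/-- gluing of the right end to the left end -/
lemma cell_glue {j : ℕ} (hj : j ≤ n) : A.cell 0 j = A.cell A.m (n - j) := by
  rw [A.cell_eq_iff (Nat.zero_le _) le_rfl hj (Nat.sub_le _ _)]
  right
  ext x
  rw [A.above_zero hj, mem_sdiff, A.mem_above_end (Nat.sub_le _ _), mem_range, mem_range]
  omega

end Arrangement

end Pool.Agent.Helper888
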