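import Pool.Agent.Helper888_Pseudo.Upper

/-!
# The number of sides of a bounded cell
-/

namespace Pool.Agent.Helper888

open Finset

lemma card_image_of_dec (f : ℕ → ℕ) (P : ℕ → Prop) [DecidablePred P] {u v : ℕ} (huv : u ≤ v)
    (h1 : ∀ s, u ≤ s → s < v → P s → f (s + 1) < f s)
    (h2 : ∀ s, u ≤ s → s < v → ¬ P s → f (s + 1) = f s) :
    ((Icc u v).image f).card = 1 + ∑ s ∈ Ico u v, (if P s then 1 else 0) ∧
      ∀ s, u ≤ s → s ≤ v → f v ≤ f s := by
  induction v, huv using Nat.le_induction with
  | base =>
    simp only [Icc_self, image_singleton, card_singleton, Ico_self, sum_empty, add_zero,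
      true_and]
    intro s hs1 hs2
    have : s = u := by omega
    subst this; exact le_rfl
  | succ v huv ih =>
    obtain ⟨ih1, ih2⟩ := ih (fun s a b => h1 s a (by omega)) (fun s a b => h2 s a (by omega))
    have hI : Icc u (v + 1) = insert (v + 1) (Icc u v) := by
      ext x; simp only [mem_Icc, mem_insert]; omega
    rw [hI, image_insert, sum_Ico_succ_top huv]
    by_cases hP : P v
    · have hlt := h1 v huv (Nat.lt_succ_self v) hP
      rw [if_pos hP, card_insert_of_notMem, ih1]
      · refine ⟨by ring, fun s a b => ?_⟩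
        rcases Nat.lt_or_ge v s with h | h
        · have : s = v + 1 := by omega
          subst this; exact le_rfl
        · exact hlt.le.trans (ih2 s a h)
      · intro hmem
        rw [mem_image] at hmem
        obtain ⟨s, hs, he⟩ := hmem
        rw [mem_Icc] at hs
        have := ih2 s hs.1 hs.2
        omega
    · have heq := h2 v huv (Nat.lt_succ_self v) hP
      rw [if_neg hP, insert_eq_of_mem, ih1]
      · refine ⟨by ring, fun s a b => ?_⟩
        rcases Nat.lt_or_ge v s with h | h
        · have : s = v + 1 := by omega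
          subst this; exact le_rfl
        · rw [heq]; exact ih2 s a h
      · rw [heq]; exact mem_image_of_mem f (mem_Icc.2 ⟨huv, le_rfl⟩)

lemma card_image_of_inc (f : ℕ → ℕ) (P : ℕ → Prop) [DecidablePred P] {u v : ℕ} (huv : u ≤ v)
    (h1 : ∀ s, u ≤ s → s < v → P s → f s < f (s + 1))
    (h2 : ∀ s, u ≤ s → s < v → ¬ P s → f (s + 1) = f s) :
    ((Icc u v).image f).card = 1 + ∑ s ∈ Ico u v, (if P s then 1 else 0) ∧
      ∀ s, u ≤ s → s ≤ v → f s ≤ f v := by
  induction v, huv using Nat.le_induction with
  | base =>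
    simp only [Icc_self, image_singleton, card_singleton, Ico_self, sum_empty, add_zero,
      true_and]
    intro s hs1 hs2
    have : s = u := by omega
    subst this; exact le_rfl
  | succ v huv ih =>
    obtain ⟨ih1, ih2⟩ := ih (fun s a b => h1 s a (by omega)) (fun s a b => h2 s a (by omega))
    have hI : Icc u (v + 1) = insert (v + 1) (Icc u v) := by
      ext x; simp only [mem_Icc, mem_insert]; omega
    rw [hI, image_insert, sum_Ico_succ_top huv]
    by_cases hP : P v
    · have hlt := h1 v huv (Nat.lt_succ_self v) hP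
      rw [if_pos hP, card_insert_of_notMem, ih1]
      · refine ⟨by ring, fun s a b => ?_⟩
        rcases Nat.lt_or_ge v s with h | h
        · have : s = v + 1 := by omega
          subst this; exact le_rfl
        · exact (ih2 s a h).trans hlt.le
      · intro hmem
        rw [mem_image] at hmem
        obtain ⟨s, hs, he⟩ := hmem
        rw [mem_Icc] at hs
        have := ih2 s hs.1 hs.2
        omega
    · have heq := h2 v huv (Nat.lt_succ_self v) hP
      rw [if_neg hP, insert_eq_of_mem, ih1]
      · refine ⟨by ring, fun s a b => ?_⟩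
        rcases Nat.lt_or_ge v s with h | h
        · have : s = v + 1 := by omega
          subst this; exact le_rfl
        · rw [heq]; exact ih2 s a h
      · rw [heq]; exact mem_image_of_mem f (mem_Icc.2 ⟨huv, le_rfl⟩)

namespace Arrangement

variable {n : ℕ} (A : Arrangement n)

lemma bounded_cell {s0 s1 j t j' : ℕ} (h01 : s0 < s1) (h1m : s1 < A.m) (c0 : A.Cov s0 j)
    (c1 : A.Cov s1 j) (hno : ∀ r, s0 < r → r < s1 → ¬ A.Cov r j) (ht : t ≤ A.m) (hj' : j' ≤ n)
    (h : A.cell t j' = A.cell (s0 + 1) j) : j' = j ∧ s0 < t ∧ t ≤ s1 := by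
  have hj : j ≤ n := (c0.le (by omega)).le
  rw [A.cell_eq_iff ht (by omega) hj' hj] at h
  rcases h with h | h
  · have hjj : j' = j := by
      have := congrArg Finset.card h
      rwa [A.card_above ht hj', A.card_above (by omega) hj] at this
    subst hjj
    refine ⟨rfl, ?_, ?_⟩
    · by_contra hlt
      have := (A.above_inj (t := t) (s := s0 + 1) (by omega) (by omega) hj hj h).2 s0
        (by omega) (by omega)
      exact this c0
    · by_contra hlt
      have := (A.above_inj (t := s0 + 1) (s := t) (by omega) ht hj hj h.symm).2 s1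
        (by omega) (by omega)
      exact this c1
  · exfalso
    have hS : A.above s1 j = A.above (s0 + 1) j :=
      A.above_const (by omega) (by omega) hj (fun r g1 g2 => hno r (by omega) g2)
    rcases Nat.lt_or_ge s0 t with hlt | hge
    · -- the vertex `s0` is before `t`
      have := A.compl_ne (t := s0) (s := t) (j := j) (j' := j') hlt ht hj hj' c0
      apply this
      rw [h, Finset.sdiff_sdiff_eq_self (A.above_subset (by omega) hj)]
    · -- the vertex `s1` is after `t`
      obtain ⟨a, b, hab, hbn, -, -, h3, h4⟩ := A.cov_pair h1m hj c1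
      rw [hS] at h3 h4
      have hb : b ∈ A.above t j' := by rw [h, mem_sdiff, mem_range]; exact ⟨hbn, h4⟩
      have ha : a ∉ A.above t j' := by rw [h, mem_sdiff]; exact fun hh => hh.2 h3
      have hinv := A.inv_of_mem ht hj' hb ha (by omega)
      have hinv' := A.inv_mono (t := t) (s := s1) (by omega) (by omega) hab hinv
      rw [← hS] at h3 h4
      exact h4 (A.inv_mem (by omega) hj hinv' h3)

lemma card_sides_bounded {s0 s1 j : ℕ} (h01 : s0 < s1) (h1m : s1 < A.m) (c0 : A.Cov s0 j)
    (c1 : A.Cov s1 j) (hno : ∀ r, s0 < r → r < s1 → ¬ A.Cov r j) :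
    (A.sides (A.cell (s0 + 1) j)).card = 2 +
      ∑ s ∈ Ico (s0 + 1) s1, ((if A.hi s + 1 = j then 1 else 0) +
        (if A.lo s = j then 1 else 0)) := by
  have hjn : j < n := c0.le (by omega)
  have h0 : 0 < j := by have := c0.1; omega
  have hS : ∀ s, s0 < s → s ≤ s1 → A.above s j = A.above (s0 + 1) j := fun s g1 g2 =>
    A.above_const g1 (by omega) hjn.le (fun r q1 q2 => hno r (by omega) (by omega))
  have hcell : ∀ s, s0 < s → s ≤ s1 → A.cell s j = A.cell (s0 + 1) j := by
    intro s g1 g2; unfold cell; rw [hS s g1 g2]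
  have hsides : A.sides (A.cell (s0 + 1) j) =
      (Icc (s0 + 1) s1).image (fun s => A.wire s (j - 1)) ∪
      (Icc (s0 + 1) s1).image (fun s => A.wire s j) := by
    ext i
    rw [A.mem_sides, mem_union, mem_image, mem_image]
    constructor
    · rintro ⟨t, j', ht, hj', hc, rfl⟩
      rcases hc with hc | hc
      · right
        obtain ⟨g1, g2, g3⟩ := A.bounded_cell h01 h1m c0 c1 hno ht hj'.le hc
        subst g1
        exact ⟨t, mem_Icc.2 ⟨g2, g3⟩, rfl⟩
      · left
        obtain ⟨g1, g2, g3⟩ := A.bounded_cell h01 h1m c0 c1 hno ht hj' hc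
        subst g1
        exact ⟨t, mem_Icc.2 ⟨g2, g3⟩, rfl⟩
    · rintro (⟨t, ht, rfl⟩ | ⟨t, ht, rfl⟩)
      · rw [mem_Icc] at ht
        refine ⟨t, j - 1, by omega, by omega, Or.inr ?_, rfl⟩
        have : j - 1 + 1 = j := by omega
        rw [this]; exact hcell t ht.1 ht.2
      · rw [mem_Icc] at ht
        exact ⟨t, j, by omega, hjn, Or.inl (hcell t ht.1 ht.2), rfl⟩
  have hdisj : Disjoint ((Icc (s0 + 1) s1).image (fun s => A.wire s (j - 1)))
      ((Icc (s0 + 1) s1).image (fun s => A.wire s j)) := by
    rw [disjoint_left]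
    intro i h1 h2
    rw [mem_image] at h1 h2
    obtain ⟨s, hs, rfl⟩ := h1
    obtain ⟨s', hs', he⟩ := h2
    rw [mem_Icc] at hs hs'
    have g1 : A.wire s (j - 1) ∈ A.above s j :=
      (A.wire_mem_above (by omega) (by omega) hjn.le).2 (by omega)
    have g2 : A.wire s' j ∉ A.above s' j := by
      rw [A.wire_mem_above (by omega) hjn hjn.le]; omega
    rw [hS s hs.1 hs.2] at g1
    rw [hS s' hs'.1 hs'.2, he] at g2
    exact g2 g1
  rw [hsides, card_union_of_disjoint hdisj]
  have e1 := (card_image_of_dec (fun s => A.wire s (j - 1)) (fun s => A.hi s + 1 = j)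
    (u := s0 + 1) (v := s1) (by omega)
    (fun s g1 g2 g3 => by
      have hb := A.block s (by omega)
      rw [A.inside s (by omega) (j - 1) (by omega) (by omega)]
      exact A.once s (by omega) _ _ (by omega) (by omega) (by omega))
    (fun s g1 g2 g3 => by
      have hb := A.block s (by omega)
      have hc := hno s (by omega) g2
      unfold Cov at hc
      exact A.outside s (by omega) (j - 1) (by omega) (by omega))).1
  have e2 := (card_image_of_inc (fun s => A.wire s j) (fun s => A.lo s = j)
    (u := s0 + 1) (v := s1) (by omega)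
    (fun s g1 g2 g3 => by
      have hb := A.block s (by omega)
      rw [A.inside s (by omega) j (by omega) (by omega)]
      exact A.once s (by omega) _ _ (by omega) (by omega) (by omega))
    (fun s g1 g2 g3 => by
      have hb := A.block s (by omega)
      have hc := hno s (by omega) g2
      unfold Cov at hc
      exact A.outside s (by omega) j (by omega) (by omega))).1
  rw [e1, e2, sum_add_distrib]
  ring

/-- a family of bounded cells with `k` sides gives a lower bound for `numCells k` -/
lemma numCells_ge (k : ℕ) (T : Finset (Σ _ : ℕ, ℕ))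
    (hT : ∀ x ∈ T, ∃ s1, x.1 < s1 ∧ s1 < A.m ∧ A.Cov x.1 x.2 ∧ A.Cov s1 x.2 ∧
      (∀ r, x.1 < r → r < s1 → ¬ A.Cov r x.2) ∧
      2 + ∑ s ∈ Ico (x.1 + 1) s1, ((if A.hi s + 1 = x.2 then 1 else 0) +
        (if A.lo s = x.2 then 1 else 0)) = k) : T.card ≤ A.numCells k := by
  unfold numCells
  rw [← card_image_of_injOn (s := T) (f := fun x : Σ _ : ℕ, ℕ => A.cell (x.1 + 1) x.2)]
  · apply card_le_card
    intro c hc
    rw [mem_image] at hc
    obtain ⟨x, hx, rfl⟩ := hc
    obtain ⟨s1, h1, h2, h3, h4, h5, h6⟩ := hT x hx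
    rw [mem_filter]
    refine ⟨A.cell_mem (by omega) (h3.le (by omega)).le, ?_⟩
    rw [A.card_sides_bounded h1 h2 h3 h4 h5, h6]
  · rintro ⟨t, j⟩ hx ⟨t', j'⟩ hy h
    obtain ⟨s1, h1, h2, h3, -⟩ := hT _ hx
    obtain ⟨s2, k1, k2, k3, -⟩ := hT _ hy
    simp only at h h1 h3 k1 k3
    obtain ⟨e1, e2⟩ := A.cover_cell_inj (by omega) (by omega) h3 k3 h
    subst e1; subst e2; rfl

end Arrangement

end Pool.Agent.Helper888
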