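import Pool.Agent.Helper888_Pseudo.Word

/-!
# Brick walls with vertical passes
-/

namespace Pool.Agent.Helper888

open Finset

/-- the letters `b, b+2, ..., b+2(c-1)` -/
def roundWord (b : ℕ) : ℕ → List ℕ
  | 0 => []
  | c + 1 => b :: roundWord (b + 2) c

/-- the letters `a+d, a+d-1, ..., a+1`: the wire in position `a+d` moves up to position `a` -/
def passWord (a : ℕ) : ℕ → List ℕ
  | 0 => []
  | d + 1 => (a + d + 1) :: passWord a d

lemma exec_comp (w : List ℕ) : ∀ (F g : ℕ → ℕ), exec w (fun p => F (g p)) = fun p => F (exec w g p) := by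
  induction w with
  | nil => intro F g; rfl
  | cons x w ih =>
    intro F g
    simp only [exec]
    rw [← ih]
    congr 1
    funext p
    unfold swp
    split_ifs <;> rfl

lemma mem_roundWord {b c x : ℕ} (h : x ∈ roundWord b c) : b ≤ x ∧ x + 2 ≤ b + 2 * c := by
  induction c generalizing b with
  | zero => simp [roundWord] at h
  | succ c ih =>
    simp only [roundWord, List.mem_cons] at h
    rcases h with rfl | h
    · omega
    · have := ih h; omega

lemma mem_passWord {a d x : ℕ} (h : x ∈ passWord a d) : a < x ∧ x ≤ a + d := by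
  induction d with
  | zero => simp [passWord] at h
  | succ d ih =>
    simp only [passWord, List.mem_cons] at h
    rcases h with rfl | h
    · omega
    · have := ih h; omega

lemma exec_round (b c : ℕ) (hb : 1 ≤ b) : ∀ (f : ℕ → ℕ) (p : ℕ), exec (roundWord b c) f p =
    if b ≤ p + 1 ∧ p + 1 < b + 2 * c then
      (if (p + 1 - b) % 2 = 0 then f (p + 1) else f (p - 1)) else f p := by
  induction c generalizing b with
  | zero => intro f p; simp only [roundWord, exec]; rw [if_neg (by omega)]
  | succ c ih =>
    intro f p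
    simp only [roundWord, exec]
    rw [ih (b + 2) (by omega)]
    by_cases h1 : b + 2 ≤ p + 1 ∧ p + 1 < b + 2 + 2 * c
    · rw [if_pos h1, if_pos (show b ≤ p + 1 ∧ p + 1 < b + 2 * (c + 1) by omega)]
      by_cases h2 : (p + 1 - (b + 2)) % 2 = 0
      · rw [if_pos h2, if_pos (by omega)]
        unfold swp; rw [if_neg (by omega), if_neg (by omega)]
      · rw [if_neg h2, if_neg (by omega)]
        unfold swp; rw [if_neg (by omega), if_neg (by omega)]
    · rw [if_neg h1]
      by_cases h3 : p + 1 = b
      · rw [if_pos (by omega), if_pos (by omega)]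
        unfold swp; rw [if_pos h3, h3]
      · by_cases h4 : p = b
        · rw [if_pos (by omega), if_neg (by omega)]
          unfold swp; rw [if_neg h3, if_pos h4, h4]
        · rw [if_neg (by omega)]
          unfold swp; rw [if_neg h3, if_neg h4]

lemma steps_round (b c : ℕ) (hb : 1 ≤ b) : ∀ (f : ℕ → ℕ),
    (∀ i < c, f (b + 2 * i - 1) < f (b + 2 * i)) → steps (roundWord b c) f := by
  induction c generalizing b with
  | zero => intro f _; trivial
  | succ c ih =>
    intro f h
    simp only [roundWord, steps]
    refine ⟨⟨hb, by simpa using h 0 (by omega)⟩, ih (b + 2) (by omega) _ ?_⟩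
    intro i hi
    have := h (i + 1) (by omega)
    unfold swp
    rw [if_neg (by omega), if_neg (by omega), if_neg (by omega), if_neg (by omega)]
    have e1 : b + 2 + 2 * i - 1 = b + 2 * (i + 1) - 1 := by omega
    have e2 : b + 2 + 2 * i = b + 2 * (i + 1) := by omega
    rw [e1, e2]; exact this

lemma exec_pass (a d : ℕ) : ∀ (f : ℕ → ℕ) (p : ℕ), exec (passWord a d) f p =
    if p = a then f (a + d) else if a < p ∧ p ≤ a + d then f (p - 1) else f p := by
  induction d with
  | zero =>
    intro f p; simp only [passWord, exec]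
    split_ifs with h1 h2
    · rw [h1]; rfl
    · omega
    · rfl
  | succ d ih =>
    intro f p
    simp only [passWord, exec]
    rw [ih]
    by_cases h1 : p = a
    · rw [if_pos h1, if_pos h1]; unfold swp; rw [if_pos rfl]; rfl
    · rw [if_neg h1, if_neg h1]
      by_cases h2 : a < p ∧ p ≤ a + d
      · rw [if_pos h2, if_pos (by omega)]
        unfold swp; rw [if_neg (by omega), if_neg (by omega)]
      · rw [if_neg h2]
        by_cases h3 : p = a + d + 1
        · rw [if_pos (by omega)]
          unfold swp; rw [if_neg (by omega), if_pos h3, h3]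
        · rw [if_neg (by omega)]
          unfold swp; rw [if_neg (by omega), if_neg h3]

lemma steps_pass (a d : ℕ) : ∀ (f : ℕ → ℕ),
    (∀ p, a ≤ p → p < a + d → f p < f (a + d)) → steps (passWord a d) f := by
  induction d with
  | zero => intro f _; trivial
  | succ d ih =>
    intro f h
    simp only [passWord, steps]
    refine ⟨⟨by omega, ?_⟩, ih _ ?_⟩
    · have := h (a + d) (by omega) (by omega)
      have e : a + d + 1 - 1 = a + d := by omega
      rw [e]; exact this
    · intro p h1 h2
      have := h p h1 (by omega)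
      unfold swp
      rw [if_neg (by omega), if_neg (by omega), if_pos rfl]
      exact this

/-! ### Touching letters -/

lemma touch_round_far (g b c : ℕ) (z : List ℕ) (h : g + 1 < b) :
    touch g (roundWord b c ++ z) = touch g z := by
  induction c generalizing b with
  | zero => rfl
  | succ c ih =>
    simp only [roundWord, List.cons_append, touch]
    rw [if_neg (by omega), ih (b + 2) (by omega), if_neg (by omega)]
    simp

lemma touch_round_mem (b c i : ℕ) (z : List ℕ) (h : i < c) :
    touch (b + 2 * i) (roundWord b c ++ z) = some 0 := by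
  induction c generalizing b i with
  | zero => omega
  | succ c ih =>
    simp only [roundWord, List.cons_append, touch]
    cases i with
    | zero => rw [if_pos (by omega)]
    | succ i =>
      rw [if_neg (by omega), if_neg (by omega)]
      have := ih (b + 2) i (by omega)
      have e : b + 2 * (i + 1) = b + 2 + 2 * i := by ring
      rw [e, this]; rfl

lemma touch_round_two (b c i : ℕ) (z : List ℕ) (h : i + 1 < c) :
    touch (b + 2 * i + 1) (roundWord b c ++ z)
      = (touch (b + 2 * i + 1) z).map (fun r => r + 2) := by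
  induction c generalizing b i with
  | zero => omega
  | succ c ih =>
    simp only [roundWord, List.cons_append, touch]
    cases i with
    | zero =>
      rw [if_neg (by omega), if_pos (by omega)]
      cases c with
      | zero => omega
      | succ c =>
        simp only [roundWord, List.cons_append, touch]
        rw [if_neg (show ¬ (b + 2 = b + 2 * 0 + 1) by omega),
          if_pos (Or.inr trivial), touch_round_far _ _ _ _ (by omega), Option.map_map]
        rfl
    | succ i =>
      rw [if_neg (by omega), if_neg (by omega)]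
      have := ih (b + 2) i (by omega)
      have e : b + 2 * (i + 1) + 1 = b + 2 + 2 * i + 1 := by ring
      rw [e, this, Option.map_map]
      rfl

lemma touch_pass_far (g a d : ℕ) (z : List ℕ) (h : a + d + 1 < g) :
    touch g (passWord a d ++ z) = touch g z := by
  induction d with
  | zero => rfl
  | succ d ih =>
    simp only [passWord, List.cons_append, touch]
    rw [if_neg (by omega), ih (by omega), if_neg (by omega)]
    simp

lemma touch_pass_next (a d : ℕ) (z : List ℕ) (h : 0 < d) :
    touch (a + d + 1) (passWord a d ++ z) = (touch (a + d + 1) z).map (fun r => r + 1) := by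
  cases d with
  | zero => omega
  | succ d =>
    simp only [passWord, List.cons_append, touch]
    rw [if_neg (by omega), if_pos (by omega), touch_pass_far _ _ _ _ (by omega)]

lemma touch_pass_mem (g a d : ℕ) (z : List ℕ) (h1 : a < g) (h2 : g < a + d) :
    touch g (passWord a d ++ z) = some 1 := by
  induction d with
  | zero => omega
  | succ d ih =>
    simp only [passWord, List.cons_append, touch]
    rw [if_neg (by omega)]
    by_cases h3 : g = a + d
    · rw [if_pos (by omega)]
      cases d with
      | zero => omega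
      | succ d =>
        simp only [passWord, List.cons_append, touch]
        rw [if_pos (by omega)]; rfl
    · rw [if_neg (by omega), ih (by omega)]; rfl

lemma cntIn_pass (k a d : ℕ) (z : List ℕ) : cntIn k (passWord a d) z =
    ∑ i ∈ range d, (if touch (a + i + 1) (passWord a i ++ z) = some (k - 2) then 1 else 0) := by
  induction d with
  | zero => rfl
  | succ d ih =>
    simp only [passWord, cntIn]
    rw [sum_range_succ, ih, add_comm]

lemma cntIn_round (k b c : ℕ) (z : List ℕ) : cntIn k (roundWord b c) z =
    ∑ i ∈ range c, (if touch (b + 2 * i) (roundWord (b + 2 * i + 2) (c - 1 - i) ++ z)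
      = some (k - 2) then 1 else 0) := by
  induction c generalizing b with
  | zero => rfl
  | succ c ih =>
    simp only [roundWord, cntIn]
    rw [sum_range_succ', ih, add_comm]
    congr 1
    apply sum_congr rfl
    intro i hi
    have e1 : b + 2 + 2 * i = b + 2 * (i + 1) := by ring
    have e2 : c - 1 - i = c + 1 - 1 - (i + 1) := by omega
    rw [e1, e2]

lemma sum_ge (P : ℕ → Prop) [DecidablePred P] (f : ℕ → ℕ) (u v N : ℕ)
    (hf : Function.Injective f) (h1 : ∀ l, u ≤ l → l < v → f l < N)
    (h2 : ∀ l, u ≤ l → l < v → P (f l)) : v - u ≤ ∑ i ∈ range N, (if P i then 1 else 0) := by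
  rw [← card_filter, ← Nat.card_Ico, ← card_image_of_injective _ hf]
  apply card_le_card
  intro x hx
  rw [mem_image] at hx
  obtain ⟨l, hl, rfl⟩ := hx
  rw [mem_Ico] at hl
  rw [mem_filter, mem_range]
  exact ⟨h1 l hl.1 hl.2, h2 l hl.1 hl.2⟩

/-! ### The blocks -/

/-- one block of the brick wall with `2m` dense wires, when `K` sparse wires are on top:
an even round, a vertical pass, an odd round and, if `q = 2`, another pass -/
def blk (q m K : ℕ) : List ℕ :=
  roundWord (K + 2) (m - 1) ++ (passWord K (2 * m) ++
    (roundWord (K + 2) m ++ (if q = 2 then passWord (K + 1) (2 * m) else [])))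

lemma cntIn_blk_one (m K : ℕ) (hm : 2 ≤ m) (z : List ℕ) :
    2 * m - 3 ≤ cntIn 5 (blk 1 m K) (blk 1 m (K + 1) ++ z) := by
  unfold blk
  rw [if_neg (by omega), if_neg (by omega)]
  simp only [cntIn_append, List.append_nil, List.append_assoc]
  have h1 : m - 1 ≤ cntIn 5 (passWord K (2 * m)) (roundWord (K + 2) m ++
      (roundWord (K + 1 + 2) (m - 1) ++ (passWord (K + 1) (2 * m) ++
        (roundWord (K + 1 + 2) m ++ z)))) := by
    rw [cntIn_pass]
    refine sum_ge _ (fun l => 2 * l) 1 m (2 * m) (fun a b h => by simpa using h)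
      (fun l h1 h2 => by omega) (fun l h1 h2 => ?_)
    rw [touch_pass_next K (2 * l) _ (by omega)]
    obtain ⟨l, rfl⟩ : ∃ l', l = l' + 1 := ⟨l - 1, by omega⟩
    have e1 : K + 2 * (l + 1) + 1 = K + 2 + 2 * l + 1 := by ring
    rw [e1, touch_round_two _ _ _ _ (by omega)]
    have e2 : K + 2 + 2 * l + 1 = K + 1 + 2 + 2 * l := by ring
    rw [e2, touch_round_mem _ _ _ _ (by omega)]
    rfl
  have h2 : m - 1 - 1 ≤ cntIn 5 (roundWord (K + 2) m)
      (roundWord (K + 1 + 2) (m - 1) ++ (passWord (K + 1) (2 * m) ++
        (roundWord (K + 1 + 2) m ++ z))) := by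
    rw [cntIn_round]
    refine sum_ge _ (fun l => l) 1 (m - 1) m (fun a b h => h)
      (fun l h1 h2 => by omega) (fun l h1 h2 => ?_)
    rw [touch_round_far _ _ _ _ (by omega)]
    obtain ⟨l, rfl⟩ : ∃ l', l = l' + 1 := ⟨l - 1, by omega⟩
    have e1 : K + 2 + 2 * (l + 1) = K + 1 + 2 + 2 * l + 1 := by ring
    rw [e1, touch_round_two _ _ _ _ (by omega), touch_pass_mem _ _ _ _ (by omega) (by omega)]
    rfl
  omega

lemma cntIn_blk_two (m K : ℕ) (hm : 2 ≤ m) (z : List ℕ) :
    2 * m - 3 ≤ cntIn 6 (blk 2 m K) (blk 2 m (K + 2) ++ z) := by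
  unfold blk
  rw [if_pos rfl, if_pos rfl]
  simp only [cntIn_append, List.append_assoc]
  have h1 : m - 1 ≤ cntIn 6 (passWord K (2 * m)) (roundWord (K + 2) m ++
      (passWord (K + 1) (2 * m) ++ (roundWord (K + 2 + 2) (m - 1) ++
        (passWord (K + 2) (2 * m) ++ (roundWord (K + 2 + 2) m ++
          (passWord (K + 2 + 1) (2 * m) ++ z)))))) := by
    rw [cntIn_pass]
    refine sum_ge _ (fun l => 2 * l) 1 m (2 * m) (fun a b h => by simpa using h)
      (fun l h1 h2 => by omega) (fun l h1 h2 => ?_)
    rw [touch_pass_next K (2 * l) _ (by omega)]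
    obtain ⟨l, rfl⟩ : ∃ l', l = l' + 1 := ⟨l - 1, by omega⟩
    have e1 : K + 2 * (l + 1) + 1 = K + 2 + 2 * l + 1 := by ring
    rw [e1, touch_round_two _ _ _ _ (by omega), touch_pass_mem _ _ _ _ (by omega) (by omega)]
    rfl
  have h2 : m - 1 - 1 ≤ cntIn 6 (passWord (K + 1) (2 * m))
      (roundWord (K + 2 + 2) (m - 1) ++
        (passWord (K + 2) (2 * m) ++ (roundWord (K + 2 + 2) m ++
          (passWord (K + 2 + 1) (2 * m) ++ z)))) := by
    rw [cntIn_pass]
    refine sum_ge _ (fun l => 2 * l + 1) 1 (m - 1) (2 * m) (fun a b h => by simpa using h)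
      (fun l h1 h2 => by omega) (fun l h1 h2 => ?_)
    rw [touch_pass_next (K + 1) (2 * l + 1) _ (by omega)]
    obtain ⟨l, rfl⟩ : ∃ l', l = l' + 1 := ⟨l - 1, by omega⟩
    have e1 : K + 1 + (2 * (l + 1) + 1) + 1 = K + 2 + 2 + 2 * l + 1 := by ring
    rw [e1, touch_round_two _ _ _ _ (by omega), touch_pass_mem _ _ _ _ (by omega) (by omega)]
    rfl
  omega

lemma cntIn_blk_last (m K : ℕ) (z : List ℕ) : m - 1 ≤ cntIn 6 (blk 2 m K) z := by
  unfold blk
  rw [if_pos rfl]
  simp only [cntIn_append, List.append_assoc]
  have h1 : m - 1 ≤ cntIn 6 (passWord K (2 * m)) (roundWord (K + 2) m ++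
      (passWord (K + 1) (2 * m) ++ z)) := by
    rw [cntIn_pass]
    refine sum_ge _ (fun l => 2 * l) 1 m (2 * m) (fun a b h => by simpa using h)
      (fun l h1 h2 => by omega) (fun l h1 h2 => ?_)
    rw [touch_pass_next K (2 * l) _ (by omega)]
    obtain ⟨l, rfl⟩ : ∃ l', l = l' + 1 := ⟨l - 1, by omega⟩
    have e1 : K + 2 * (l + 1) + 1 = K + 2 + 2 * l + 1 := by ring
    rw [e1, touch_round_two _ _ _ _ (by omega), touch_pass_mem _ _ _ _ (by omega) (by omega)]
    rfl
  omega

/-- `c` blocks, starting with block number `i` -/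
def body (q m : ℕ) : ℕ → ℕ → List ℕ
  | _, 0 => []
  | i, c + 1 => blk q m (q * i) ++ body q m (i + 1) c

lemma cnt_body (q k m e : ℕ) (hk : ∀ K z, 2 * m - 3 ≤
    cntIn k (blk q m K) (blk q m (K + q) ++ z)) (he : ∀ K z, e ≤ cntIn k (blk q m K) z)
    (z : List ℕ) (i c : ℕ) :
    c * (2 * m - 3) + e + cnt k z ≤ cnt k (body q m i (c + 1) ++ z) := by
  induction c generalizing i with
  | zero =>
    simp only [body, List.append_nil]
    have := he (q * i) z
    rw [← cnt_append]; omega
  | succ c ih =>
    have h1 := ih (i + 1)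
    have h2 : body q m i (c + 1 + 1) = blk q m (q * i) ++ body q m (i + 1) (c + 1) := rfl
    rw [h2, List.append_assoc, ← cnt_append]
    have h3 : body q m (i + 1) (c + 1) = blk q m (q * i + q) ++ body q m (i + 2) c := by
      have : q * i + q = q * (i + 1) := by ring
      rw [this]; rfl
    have h4 := hk (q * i) (body q m (i + 2) c ++ z)
    rw [← List.append_assoc, ← h3] at h4
    have h5 : (c + 1) * (2 * m - 3) = c * (2 * m - 3) + (2 * m - 3) := by ring
    omega

/-- `c` further passes, starting with the sparse wire number `K` -/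
def tail (m : ℕ) : ℕ → ℕ → List ℕ
  | _, 0 => []
  | K, c + 1 => passWord K (2 * m) ++ tail m (K + 1) c

/-! ### Validity -/

/-- order of the dense wires after `t` rounds -/
def dn (m t x : ℕ) : ℕ :=
  if (x + t) % 2 = 1 then (if t ≤ x then x - t else t - x - 1)
  else (if x + t < 2 * m then x + t else 4 * m - 1 - x - t)

/-- the wiring after `t` rounds, when `K` sparse wires are on top -/
def st (m K t : ℕ) : ℕ → ℕ := fun p =>
  if p < K then 2 * m + p else if p < K + 2 * m then dn m t (p - K) else p

lemma st_top {m K t p : ℕ} (h : p < K) : st m K t p = 2 * m + p := by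
  unfold st; rw [if_pos h]

lemma st_mid {m K t p : ℕ} (h : K ≤ p) (h' : p < K + 2 * m) : st m K t p = dn m t (p - K) := by
  unfold st; rw [if_neg (by omega), if_pos h']

lemma st_bot {m K t p : ℕ} (h : K + 2 * m ≤ p) : st m K t p = p := by
  unfold st; rw [if_neg (by omega), if_neg (by omega)]

lemma dn_lt {m t x : ℕ} (ht : t ≤ 2 * m) (hx : x < 2 * m) : dn m t x < 2 * m := by
  unfold dn; split_ifs <;> omega

lemma exec_even (m K t : ℕ) (hm : 1 ≤ m) (ht : t < 2 * m) (hp : t % 2 = 0) :
    exec (roundWord (K + 2) (m - 1)) (st m K t) = st m K (t + 1) := by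
  funext p
  rw [exec_round _ _ (by omega)]
  by_cases h1 : p < K
  · rw [if_neg (by omega), st_top h1, st_top h1]
  by_cases h2 : K + 2 * m ≤ p
  · rw [if_neg (by omega), st_bot h2, st_bot h2]
  rw [st_mid (t := t + 1) (by omega) (by omega)]
  split_ifs with h3 h4
  · rw [st_mid (by omega) (by omega)]; unfold dn; split_ifs <;> omega
  · rw [st_mid (by omega) (by omega)]; unfold dn; split_ifs <;> omega
  · rw [st_mid (by omega) (by omega)]; unfold dn; split_ifs <;> omega

lemma exec_odd (m K t : ℕ) (hm : 1 ≤ m) (ht : t < 2 * m) (hp : t % 2 = 1) :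
    exec (roundWord (K + 1) m) (st m K t) = st m K (t + 1) := by
  funext p
  rw [exec_round _ _ (by omega)]
  by_cases h1 : p < K
  · rw [if_neg (by omega), st_top h1, st_top h1]
  by_cases h2 : K + 2 * m ≤ p
  · rw [if_neg (by omega), st_bot h2, st_bot h2]
  rw [st_mid (t := t + 1) (by omega) (by omega)]
  split_ifs with h3 h4
  · rw [st_mid (by omega) (by omega)]; unfold dn; split_ifs <;> omega
  · rw [st_mid (by omega) (by omega)]; unfold dn; split_ifs <;> omega
  · rw [st_mid (by omega) (by omega)]; unfold dn; split_ifs <;> omega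

lemma exec_passSt (m K t : ℕ) : exec (passWord K (2 * m)) (st m K t) = st m (K + 1) t := by
  funext p
  rw [exec_pass]
  split_ifs with h1 h2
  · rw [st_bot le_rfl, st_top (by omega)]; omega
  · rw [st_mid (by omega) (by omega), st_mid (by omega) (by omega)]
    congr 1; omega
  · by_cases h3 : p < K
    · rw [st_top h3, st_top (by omega)]
    · rw [st_bot (by omega), st_bot (by omega)]

variable {n : ℕ} {F : ℕ → ℕ}

lemma steps_even (hF : StrictMonoOn F (Set.Iio n)) (m K t : ℕ) (hm : 1 ≤ m) (ht : t < 2 * m)
    (hp : t % 2 = 0) (hn : K + 2 * m ≤ n) :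
    steps (roundWord (K + 2) (m - 1)) (fun p => F (st m K t p)) := by
  apply steps_round _ _ (by omega)
  intro i hi
  have h1 := dn_lt (m := m) (t := t) (x := K + 2 + 2 * i - K) ht.le (by omega)
  have h2 := dn_lt (m := m) (t := t) (x := K + 2 + 2 * i - 1 - K) ht.le (by omega)
  apply hF
  · rw [st_mid (by omega) (by omega), Set.mem_Iio]; omega
  · rw [st_mid (by omega) (by omega), Set.mem_Iio]; omega
  · rw [st_mid (by omega) (by omega), st_mid (by omega) (by omega)]
    unfold dn; split_ifs <;> omega

lemma steps_odd (hF : StrictMonoOn F (Set.Iio n)) (m K t : ℕ) (hm : 1 ≤ m) (ht : t < 2 * m)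
    (hp : t % 2 = 1) (hn : K + 2 * m ≤ n) :
    steps (roundWord (K + 1) m) (fun p => F (st m K t p)) := by
  apply steps_round _ _ (by omega)
  intro i hi
  have h1 := dn_lt (m := m) (t := t) (x := K + 1 + 2 * i - K) ht.le (by omega)
  have h2 := dn_lt (m := m) (t := t) (x := K + 1 + 2 * i - 1 - K) ht.le (by omega)
  apply hF
  · rw [st_mid (by omega) (by omega), Set.mem_Iio]; omega
  · rw [st_mid (by omega) (by omega), Set.mem_Iio]; omega
  · rw [st_mid (by omega) (by omega), st_mid (by omega) (by omega)]
    unfold dn; split_ifs <;> omega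

lemma steps_passSt (hF : StrictMonoOn F (Set.Iio n)) (m K t : ℕ) (ht : t ≤ 2 * m)
    (hn : K + 2 * m < n) : steps (passWord K (2 * m)) (fun p => F (st m K t p)) := by
  apply steps_pass
  intro p h1 h2
  have h3 := dn_lt (m := m) (t := t) (x := p - K) ht (by omega)
  apply hF
  · rw [st_mid (by omega) (by omega), Set.mem_Iio]; omega
  · rw [st_bot le_rfl]; exact hn
  · rw [st_mid (by omega) (by omega), st_bot le_rfl]; omega

lemma blk_ok (hF : StrictMonoOn F (Set.Iio n)) (q m K t : ℕ) (hq : q = 1 ∨ q = 2) (hm : 1 ≤ m)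
    (ht : t + 1 < 2 * m) (hp : t % 2 = 0) (hn : K + q + 2 * m ≤ n) :
    steps (blk q m K) (fun p => F (st m K t p)) ∧
      exec (blk q m K) (fun p => F (st m K t p)) = fun p => F (st m (K + q) (t + 2) p) := by
  have e1 : exec (roundWord (K + 2) (m - 1)) (fun p => F (st m K t p))
      = fun p => F (st m K (t + 1) p) := by
    rw [exec_comp, exec_even m K t hm (by omega) hp]
  have e2 : exec (passWord K (2 * m)) (fun p => F (st m K (t + 1) p))
      = fun p => F (st m (K + 1) (t + 1) p) := by
    rw [exec_comp, exec_passSt]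
  have e3 : exec (roundWord (K + 2) m) (fun p => F (st m (K + 1) (t + 1) p))
      = fun p => F (st m (K + 1) (t + 2) p) := by
    rw [exec_comp, exec_odd m (K + 1) (t + 1) hm (by omega) (by omega)]
  have e4 : exec (passWord (K + 1) (2 * m)) (fun p => F (st m (K + 1) (t + 2) p))
      = fun p => F (st m (K + 2) (t + 2) p) := by
    rw [exec_comp, exec_passSt]
  have s1 := steps_even hF m K t hm (by omega) hp (by omega)
  have s2 := steps_passSt hF m K (t + 1) (by omega) (by omega)
  have s3 := steps_odd hF m (K + 1) (t + 1) hm (by omega) (by omega) (by omega)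
  unfold blk
  rw [steps_append, exec_append, e1, steps_append, exec_append, e2, steps_append, exec_append,
    e3]
  rcases hq with rfl | rfl
  · rw [if_neg (by omega)]
    exact ⟨⟨s1, s2, s3, trivial⟩, rfl⟩
  · rw [if_pos rfl, e4]
    exact ⟨⟨s1, s2, s3, steps_passSt hF m (K + 1) (t + 2) (by omega) (by omega)⟩, rfl⟩

lemma body_ok (hF : StrictMonoOn F (Set.Iio n)) (q m : ℕ) (hq : q = 1 ∨ q = 2) (hm : 1 ≤ m)
    (hn : q * m + 2 * m ≤ n) (c i : ℕ) (hic : i + c ≤ m) :
    steps (body q m i c) (fun p => F (st m (q * i) (2 * i) p)) ∧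
      exec (body q m i c) (fun p => F (st m (q * i) (2 * i) p))
        = fun p => F (st m (q * (i + c)) (2 * (i + c)) p) := by
  induction c generalizing i with
  | zero => exact ⟨trivial, rfl⟩
  | succ c ih =>
    have hle : q * (i + 1) ≤ q * m := Nat.mul_le_mul_left q (by omega)
    have hqi : q * (i + 1) = q * i + q := by ring
    obtain ⟨b1, b2⟩ := blk_ok hF q m (q * i) (2 * i) hq hm (by omega) (by omega) (by omega)
    have e1 : q * i + q = q * (i + 1) := by ring
    have e2 : 2 * i + 2 = 2 * (i + 1) := by ring
    rw [e1, e2] at b2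
    obtain ⟨c1, c2⟩ := ih (i + 1) (by omega)
    simp only [body]
    rw [steps_append, exec_append, b2]
    refine ⟨⟨b1, c1⟩, ?_⟩
    rw [c2]
    have e3 : i + 1 + c = i + (c + 1) := by ring
    rw [e3]

lemma tail_ok (hF : StrictMonoOn F (Set.Iio n)) (m : ℕ) (c K : ℕ) (hn : K + c + 2 * m ≤ n) :
    steps (tail m K c) (fun p => F (st m K (2 * m) p)) ∧
      exec (tail m K c) (fun p => F (st m K (2 * m) p)) = fun p => F (st m (K + c) (2 * m) p) := by
  induction c generalizing K with
  | zero => exact ⟨trivial, rfl⟩
  | succ c ih =>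
    obtain ⟨c1, c2⟩ := ih (K + 1) (by omega)
    have e1 : exec (passWord K (2 * m)) (fun p => F (st m K (2 * m) p))
      = fun p => F (st m (K + 1) (2 * m) p) := by
      rw [exec_comp, exec_passSt]
    simp only [tail]
    rw [steps_append, exec_append, e1]
    refine ⟨⟨steps_passSt hF m K (2 * m) le_rfl (by omega), c1⟩, ?_⟩
    rw [c2]
    have e3 : K + 1 + c = K + (c + 1) := by ring
    rw [e3]

lemma mem_blk {q m K x : ℕ} (hm : 1 ≤ m) (hq : q = 1 ∨ q = 2) (h : x ∈ blk q m K) :
    1 ≤ x ∧ x < K + q + 2 * m := by
  unfold blk at h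
  simp only [List.mem_append] at h
  rcases h with h | h | h | h
  · have := mem_roundWord h; omega
  · have := mem_passWord h; omega
  · have := mem_roundWord h; omega
  · split_ifs at h with h2
    · have := mem_passWord h; omega
    · simp at h

lemma mem_body {q m i c x : ℕ} (hm : 1 ≤ m) (hq : q = 1 ∨ q = 2) (h : x ∈ body q m i c) :
    1 ≤ x ∧ x < q * (i + c) + 2 * m := by
  induction c generalizing i with
  | zero => simp [body] at h
  | succ c ih =>
    simp only [body, List.mem_append] at h
    have hqi : q * (i + (c + 1)) = q * i + q + q * c := by ring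
    rcases h with h | h
    · have := mem_blk hm hq h; omega
    · have := ih h
      have e : i + 1 + c = i + (c + 1) := by ring
      rw [e] at this; exact this

lemma mem_tail {m K c x : ℕ} (hm : 1 ≤ m) (h : x ∈ tail m K c) :
    1 ≤ x ∧ x < K + c + 2 * m := by
  induction c generalizing K with
  | zero => simp [tail] at h
  | succ c ih =>
    simp only [tail, List.mem_append] at h
    rcases h with h | h
    · have := mem_passWord h; omega
    · have := ih h; omega

/-- the word for `2m` dense and `q*m+c` sparse wires is a reduced word for the reversal, if the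
last part is one for the sparse wires -/
lemma good_step (q m c : ℕ) (hq : q = 1 ∨ q = 2) (hm : 1 ≤ m) (v : List ℕ)
    (hv : Good (q * m + c) v) :
    Good (2 * m + (q * m + c)) (body q m 0 m ++ (tail m (q * m) c ++ v)) := by
  have hst0 : ∀ F : ℕ → ℕ, (fun p => F (st m (q * 0) (2 * 0) p)) = F := by
    intro F; funext p; congr 1
    rcases Nat.lt_or_ge p (2 * m) with h | h
    · rw [st_mid (by omega) (by omega)]; unfold dn; split_ifs <;> omega
    · rw [st_bot (by omega)]
  have hexec : ∀ F : ℕ → ℕ, exec (body q m 0 m ++ tail m (q * m) c) F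
      = fun p => F (st m (q * m + c) (2 * m) p) := by
    intro F
    have h1 := (body_ok (F := id) (n := q * m + 2 * m) (fun a _ b _ hab => hab) q m hq hm le_rfl
      m 0 (by omega)).2
    have h2 := (tail_ok (F := id) (n := q * m + c + 2 * m) (fun a _ b _ hab => hab) m c (q * m)
      le_rfl).2
    rw [hst0 id] at h1
    have h3 : exec (body q m 0 m ++ tail m (q * m) c) id = st m (q * m + c) (2 * m) := by
      rw [exec_append, h1]
      simpa using h2
    have := exec_comp (body q m 0 m ++ tail m (q * m) c) F id
    rw [h3] at this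
    exact this
  refine ⟨?_, ?_, ?_⟩
  · intro g hg
    rw [List.mem_append, List.mem_append] at hg
    rcases hg with h | h | h
    · have := mem_body hm hq h
      have e : q * (0 + m) = q * m := by ring
      omega
    · have := mem_tail hm h; omega
    · have := hv.letters g h; omega
  · intro F hF
    rw [← List.append_assoc, steps_append, steps_append, hexec]
    obtain ⟨b1, b2⟩ := body_ok (F := F) (n := 2 * m + (q * m + c)) hF q m hq hm (by omega) m 0
      (by omega)
    rw [hst0 F] at b1 b2
    have e1 : q * (0 + m) = q * m := by ring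
    have e2 : 2 * (0 + m) = 2 * m := by ring
    rw [e1, e2] at b2
    refine ⟨⟨b1, ?_⟩, ?_⟩
    · rw [b2]
      exact (tail_ok hF m c (q * m) (by omega)).1
    · apply hv.steps
      intro a ha b hb hab
      simp only [Set.mem_Iio] at ha hb
      show F (st m (q * m + c) (2 * m) a) < F (st m (q * m + c) (2 * m) b)
      rw [st_top ha, st_top hb]
      apply hF
      · rw [Set.mem_Iio]; omega
      · rw [Set.mem_Iio]; omega
      · omega
  · intro F p
    rw [← List.append_assoc, exec_append, hexec, hv.exec]
    by_cases h1 : p < q * m + c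
    · rw [if_pos h1, if_pos (by omega), st_top (by omega)]
      congr 1; omega
    · rw [if_neg h1]
      by_cases h2 : p < 2 * m + (q * m + c)
      · rw [if_pos h2, st_mid (by omega) (by omega)]
        congr 1
        unfold dn; split_ifs <;> omega
      · rw [if_neg h2, st_bot (by omega)]

/-! ### Small words -/

lemma good_zero : Good 0 [] := ⟨by simp, fun _ _ => trivial, fun F p => by simp [exec]⟩

lemma good_one : Good 1 [] := ⟨by simp, fun _ _ => trivial, fun F p => by
  simp only [exec]; split_ifs with h
  · congr 1; omega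
  · rfl⟩

lemma good_two : Good 2 [1] := by
  refine ⟨by simp, fun F hF => ?_, fun F p => ?_⟩
  · simp only [steps]
    exact ⟨⟨le_rfl, hF (by simp) (by simp) (by norm_num)⟩, trivial⟩
  · simp only [exec]; unfold swp
    split_ifs with h1 h2 h3 h4 h5
    all_goals first | (congr 1; omega) | omega

lemma good_three : Good 3 [1, 2, 1] := by
  refine ⟨by simp, fun F hF => ?_, fun F p => ?_⟩
  · simp only [steps]
    have h1 := hF (a := 0) (b := 1) (by simp) (by simp) (by norm_num)
    have h2 := hF (a := 0) (b := 2) (by simp) (by simp) (by norm_num)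
    have h3 := hF (a := 1) (b := 2) (by simp) (by simp) (by norm_num)
    refine ⟨⟨le_rfl, h1⟩, ⟨by norm_num, ?_⟩, ⟨le_rfl, ?_⟩, trivial⟩
    · simpa [swp] using h2
    · simpa [swp] using h3
  · simp only [exec]; unfold swp
    have : p = 0 ∨ p = 1 ∨ p = 2 ∨ 3 ≤ p := by omega
    rcases this with rfl | rfl | rfl | h
    · simp
    · simp
    · simp
    · rw [if_neg (by omega), if_neg (by omega), if_neg (by omega), if_neg (by omega),
        if_neg (by omega), if_neg (by omega), if_neg (by omega)]

end Pool.Agent.Helper888
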