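import Mathlib

/-!
# Arrangements of pseudolines in the real projective plane

An arrangement of `n` pseudolines in the projective plane, simple or not, is given by a wiring
diagram (Goodman: every arrangement of pseudolines is isomorphic to one).  The affine part of the
plane is swept by a vertical line from left to right.  The pseudolines are the wires `0, ..., n-1`,
numbered from top to bottom at the left end.  They meet in `m` vertices, ordered from left to
right; at the vertex number `t` the wires in the consecutive positions `lo t, ..., hi t` cross each
other, so that their order is reversed.  The right end of the diagram is glued to the left end
upside down (the wire which leaves in position `n-1-i` is the one which enters in position `i`),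
and the region above all wires is glued to the region below all wires; the result is the
projective plane.
-/

namespace Pool.Agent.Helper888

/-- An arrangement of `n` pseudolines in the projective plane, given by a wiring diagram.
Positions are counted from the top and start with `0`. -/
structure Arrangement (n : ℕ) where
  /-- the number of vertices -/
  m : ℕ
  /-- vertex number `t` is the common point of the wires in positions `lo t, ..., hi t` -/
  lo : ℕ → ℕ
  hi : ℕ → ℕ
  /-- `wire t p` is the pseudoline in position `p` after the first `t` vertices -/
  wire : ℕ → ℕ → ℕ
  start : ∀ p < n, wire 0 p = p
  finish : ∀ p < n, wire m p = n - 1 - p
  block : ∀ t < m, lo t < hi t ∧ hi t < n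
  /-- at a vertex the order of the wires which pass through it is reversed -/
  inside : ∀ t < m, ∀ p, lo t ≤ p → p ≤ hi t → wire (t + 1) p = wire t (lo t + hi t - p)
  /-- the other wires keep their positions -/
  outside : ∀ t < m, ∀ p < n, p < lo t ∨ hi t < p → wire (t + 1) p = wire t p
  /-- two wires which cross at vertex `t` have not crossed before -/
  once : ∀ t < m, ∀ p q, lo t ≤ p → p < q → q ≤ hi t → wire t p < wire t q
  /-- no point lies on all pseudolines -/
  notPencil : ∀ t < m, hi t - lo t + 1 < n

namespace Arrangement

variable {n : ℕ} (A : Arrangement n)

/-- The set of pseudolines which pass above the gap number `j` (between the positions `j-1` and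
`j`) after the first `t` vertices. -/
def above (t j : ℕ) : Finset ℕ := (Finset.range j).image (A.wire t)

/-- The 2-cell of the projective plane which contains the gap number `j` after the first `t`
vertices.  Two points off the pseudolines lie in the same 2-cell of the projective plane if and
only if the sets of pseudolines above them are equal or complementary, so the cell is represented
by the unordered pair consisting of that set and its complement. -/
def cell (t j : ℕ) : Finset (Finset ℕ) := {A.above t j, Finset.range n \ A.above t j}

/-- The set of all 2-cells of the arrangement. -/
def cells : Finset (Finset (Finset ℕ)) :=
  (Finset.range (A.m + 1) ×ˢ Finset.range (n + 1)).image fun x => A.cell x.1 x.2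

/-- The pseudolines which contain an edge of the boundary of the cell `c`: pseudoline `i` is in
some position `j` after the first `t` vertices, and `c` is the cell just above or just below. -/
def sides (c : Finset (Finset ℕ)) : Finset ℕ :=
  ((Finset.range (A.m + 1) ×ˢ Finset.range n).filter fun x =>
    A.cell x.1 x.2 = c ∨ A.cell x.1 (x.2 + 1) = c).image fun x => A.wire x.1 x.2

/-- The number of `k`-sided 2-cells of the arrangement. -/
def numCells (k : ℕ) : ℕ := (A.cells.filter fun c => (A.sides c).card = k).card

end Arrangement

end Pool.Agent.Helper888
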