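import Pool.Agent.Helper888_Pseudo.Brick

/-!
# Lower bounds for the number of pentagons and hexagons
-/

namespace Pool.Agent.Helper888

open Finset

lemma cnt_tail (k m K c : ℕ) (v : List ℕ) : cnt k v ≤ cnt k (tail m K c ++ v) := by
  rw [← cnt_append]; omega

theorem exists_word_five (n : ℕ) : ∃ w, Good n w ∧ n * n ≤ 4 * cnt 5 w + 14 * n := by
  induction n using Nat.strong_induction_on with
  | _ n ih =>
    rcases Nat.lt_or_ge n 3 with h | h
    · have : n = 0 ∨ n = 1 ∨ n = 2 := by omega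
      rcases this with rfl | rfl | rfl
      · exact ⟨[], good_zero, by omega⟩
      · exact ⟨[], good_one, by omega⟩
      · exact ⟨[1], good_two, by omega⟩
    · obtain ⟨m, r, hm, hr, rfl⟩ : ∃ m r, 1 ≤ m ∧ r ≤ 2 ∧ n = 2 * m + (1 * m + r) :=
        ⟨n / 3, n % 3, by omega, by omega, by omega⟩
      obtain ⟨v, hv, hb⟩ := ih (1 * m + r) (by omega)
      refine ⟨_, good_step 1 m r (Or.inl rfl) hm v hv, ?_⟩
      rcases Nat.lt_or_ge m 2 with hm2 | hm2
      · have : m = 1 := by omega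
        subst this
        nlinarith
      · obtain ⟨c, rfl⟩ : ∃ c, m = c + 2 := ⟨m - 2, by omega⟩
        have h1 := cnt_body 1 5 (c + 2) 0 (fun K z => cntIn_blk_one (c + 2) K hm2 z)
          (fun _ _ => Nat.zero_le _) (tail (c + 2) (1 * (c + 2)) r ++ v) 0 (c + 1)
        have h2 := cnt_tail 5 (c + 2) (1 * (c + 2)) r v
        have h3 : 2 * (c + 2) - 3 = 2 * c + 1 := by omega
        rw [h3] at h1
        have h4 : c + 1 + 1 = c + 2 := rfl
        rw [h4] at h1
        have h5 : c * r ≤ 2 * c := by nlinarith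
        nlinarith

theorem exists_word_six (n : ℕ) : ∃ w, Good n w ∧ n * n ≤ 6 * cnt 6 w + 18 * n := by
  induction n using Nat.strong_induction_on with
  | _ n ih =>
    rcases Nat.lt_or_ge n 4 with h | h
    · have : n = 0 ∨ n = 1 ∨ n = 2 ∨ n = 3 := by omega
      rcases this with rfl | rfl | rfl | rfl
      · exact ⟨[], good_zero, by omega⟩
      · exact ⟨[], good_one, by omega⟩
      · exact ⟨[1], good_two, by omega⟩
      · exact ⟨[1, 2, 1], good_three, by omega⟩
    · obtain ⟨m, r, hm, hr, rfl⟩ : ∃ m r, 1 ≤ m ∧ r ≤ 3 ∧ n = 2 * m + (2 * m + r) :=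
        ⟨n / 4, n % 4, by omega, by omega, by omega⟩
      obtain ⟨v, hv, hb⟩ := ih (2 * m + r) (by omega)
      refine ⟨_, good_step 2 m r (Or.inr rfl) hm v hv, ?_⟩
      rcases Nat.lt_or_ge m 2 with hm2 | hm2
      · have : m = 1 := by omega
        subst this
        nlinarith
      · obtain ⟨c, rfl⟩ : ∃ c, m = c + 2 := ⟨m - 2, by omega⟩
        have h1 := cnt_body 2 6 (c + 2) (c + 2 - 1) (fun K z => cntIn_blk_two (c + 2) K hm2 z)
          (fun K z => cntIn_blk_last (c + 2) K z) (tail (c + 2) (2 * (c + 2)) r ++ v) 0 (c + 1)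
        have h2 := cnt_tail 6 (c + 2) (2 * (c + 2)) r v
        have h3 : 2 * (c + 2) - 3 = 2 * c + 1 := by omega
        have h3' : c + 2 - 1 = c + 1 := by omega
        rw [h3, h3'] at h1
        have h4 : c + 1 + 1 = c + 2 := rfl
        rw [h4] at h1
        have h5 : c * r ≤ 3 * c := by nlinarith
        nlinarith

/-- the maximum exists and satisfies the two bounds -/
theorem exists_max (n k a b : ℕ) (hn : 3 ≤ n) (hk : 4 ≤ k)
    (h : ∃ w, Good n w ∧ n * n ≤ a * cnt k w + b * n) :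
    ∃ x : ℕ, IsGreatest {y | ∃ A : Arrangement n, A.numCells k = y} x ∧
      n ^ 2 ≤ a * x + b * n ∧ 2 * (k - 3) * x + n + 6 ≤ n ^ 2 := by
  set S : Set ℕ := {y | ∃ A : Arrangement n, A.numCells k = y} with hS
  have hbd : ∀ y ∈ S, 2 * (k - 3) * y + n + 6 ≤ n ^ 2 := by
    rintro y ⟨A, rfl⟩
    have h1 := A.upper hn k
    have h2 : n * (n - 1) + n = n ^ 2 := by
      obtain ⟨n, rfl⟩ : ∃ n', n = n' + 1 := ⟨n - 1, by omega⟩
      simp only [Nat.add_sub_cancel]; ring
    omega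
  have hbdd : BddAbove S := by
    refine ⟨n ^ 2, fun y hy => ?_⟩
    have h1 := hbd y hy
    have h2 : 1 * y ≤ 2 * (k - 3) * y := Nat.mul_le_mul_right y (by omega)
    omega
  obtain ⟨w, hw, hb⟩ := h
  have hle := cnt_le n hn w hw k (by omega)
  have hne : S.Nonempty := ⟨_, ofWord n hn w hw, rfl⟩
  refine ⟨sSup S, ⟨Nat.sSup_mem hne hbdd, fun y hy => le_csSup hbdd hy⟩, ?_,
    hbd _ (Nat.sSup_mem hne hbdd)⟩
  have h3 : (ofWord n hn w hw).numCells k ≤ sSup S := le_csSup hbdd ⟨_, rfl⟩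
  have h4 : a * cnt k w ≤ a * sSup S := Nat.mul_le_mul_left a (hle.trans h3)
  rw [pow_two]
  omega

end Pool.Agent.Helper888
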