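import Pool.Agent.Helper888_Pseudo.Basic

/-!
# Counting cells and sides; the upper bound
-/

namespace Pool.Agent.Helper888

namespace Arrangement

open Finset

variable {n : ℕ} (A : Arrangement n)

lemma cov_pair {t j : ℕ} (ht : t < A.m) (hj : j ≤ n) (hc : A.Cov t j) :
    ∃ a b, a < b ∧ b < n ∧ b ∈ A.above (t + 1) j ∧ a ∉ A.above (t + 1) j ∧
      a ∈ A.above t j ∧ b ∉ A.above t j := by
  have hb := A.block t ht
  obtain ⟨h1, h2⟩ := hc
  have e1 : A.wire (t + 1) (A.lo t) = A.wire t (A.hi t) := by
    rw [A.inside t ht _ le_rfl hb.1.le]; congr 1; omega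
  have e2 : A.wire (t + 1) (A.hi t) = A.wire t (A.lo t) := by
    rw [A.inside t ht _ hb.1.le le_rfl]; congr 1; omega
  refine ⟨A.wire t (A.lo t), A.wire t (A.hi t), A.once t ht _ _ le_rfl hb.1 le_rfl,
    A.wire_lt ht.le hb.2, ?_, ?_, ?_, ?_⟩
  · rw [← e1, A.wire_mem_above ht (by omega) hj]; exact h1
  · rw [← e2, A.wire_mem_above ht (by omega) hj]; omega
  · rw [A.wire_mem_above ht.le (by omega) hj]; exact h1
  · rw [A.wire_mem_above ht.le (by omega) hj]; omega

lemma compl_ne {t s j j' : ℕ} (hts : t < s) (hs : s ≤ A.m) (hj : j ≤ n) (hj' : j' ≤ n)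
    (hc : A.Cov t j) : A.above (t + 1) j ≠ range n \ A.above s j' := by
  intro h
  obtain ⟨a, b, hab, hbn, h1, h2, -, -⟩ := A.cov_pair (by omega) hj hc
  have hi : A.Inv (t + 1) a b := A.inv_of_mem (by omega) hj h1 h2 (by omega)
  have hi' := A.inv_mono hts hs hab hi
  rw [h, mem_sdiff] at h1 h2
  have ha : a ∈ A.above s j' := by
    by_contra hh; exact h2 ⟨mem_range.2 (by omega), hh⟩
  exact h1.2 (A.inv_mem hs hj' hi' ha)

/-- index set of the cells -/
def covers : Finset (Σ _ : ℕ, ℕ) := (range A.m).sigma fun t => Ioc (A.lo t) (A.hi t)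

lemma mem_covers {t j : ℕ} : (⟨t, j⟩ : Σ _ : ℕ, ℕ) ∈ A.covers ↔ t < A.m ∧ A.Cov t j := by
  simp [covers, Cov]

lemma card_covers : A.covers.card = ∑ t ∈ range A.m, (A.hi t - A.lo t) := by
  simp [covers, card_sigma]

lemma Cov.le {t j : ℕ} {A : Arrangement n} (hc : A.Cov t j) (ht : t < A.m) : j < n := by
  have := A.block t ht
  exact lt_of_le_of_lt hc.2 this.2

lemma cover_cell_inj' {t j t' j' : ℕ} (htt : t ≤ t') (ht' : t' < A.m) (hc : A.Cov t j)
    (hc' : A.Cov t' j') (h : A.cell (t + 1) j = A.cell (t' + 1) j') : t = t' ∧ j = j' := by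
  have hj : j ≤ n := (hc.le (by omega)).le
  have hj' : j' ≤ n := (hc'.le (by omega)).le
  rw [A.cell_eq_iff (by omega) (by omega) hj hj'] at h
  rcases h with h | h
  · obtain ⟨h1, h2⟩ := A.above_inj (by omega) (by omega) hj hj' h
    subst h1
    refine ⟨?_, rfl⟩
    by_contra hne
    exact h2 t' (by omega) (by omega) hc'
  · exact absurd h (A.compl_ne (by omega) (by omega) hj hj' hc)

lemma cover_cell_inj {t j t' j' : ℕ} (ht : t < A.m) (ht' : t' < A.m) (hc : A.Cov t j)
    (hc' : A.Cov t' j') (h : A.cell (t + 1) j = A.cell (t' + 1) j') : t = t' ∧ j = j' := by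
  rcases le_total t t' with h1 | h1
  · exact A.cover_cell_inj' h1 ht' hc hc' h
  · have := A.cover_cell_inj' h1 ht hc' hc h.symm
    exact ⟨this.1.symm, this.2.symm⟩

lemma card_cells_ge : 1 + ∑ t ∈ range A.m, (A.hi t - A.lo t) ≤ A.cells.card := by
  have hinj : Set.InjOn (fun x : Σ _ : ℕ, ℕ => A.cell (x.1 + 1) x.2) A.covers := by
    rintro ⟨t, j⟩ hx ⟨t', j'⟩ hy h
    have hx' := A.mem_covers.1 hx
    have hy' := A.mem_covers.1 hy
    obtain ⟨h1, h2⟩ := A.cover_cell_inj hx'.1 hy'.1 hx'.2 hy'.2 h
    subst h1; subst h2; rfl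
  have hnot : A.cell 0 0 ∉ A.covers.image (fun x : Σ _ : ℕ, ℕ => A.cell (x.1 + 1) x.2) := by
    intro hmem
    rw [mem_image] at hmem
    obtain ⟨⟨t, j⟩, hx, h⟩ := hmem
    obtain ⟨ht, hc⟩ := A.mem_covers.1 hx
    have hj := hc.le ht
    simp only at h
    rw [A.cell_eq_iff (by omega) (by omega) hj.le (by omega), A.above_zero (Nat.zero_le _)] at h
    have hcard := A.card_above (t := t + 1) (by omega) hj.le
    have := hc.1
    rcases h with h | h
    · rw [h] at hcard; simp at hcard; omega
    · rw [h] at hcard; simp at hcard; omega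
  have hsub : insert (A.cell 0 0) (A.covers.image
      (fun x : Σ _ : ℕ, ℕ => A.cell (x.1 + 1) x.2)) ⊆ A.cells := by
    intro c hc
    rw [mem_insert, mem_image] at hc
    rcases hc with rfl | ⟨⟨t, j⟩, hx, rfl⟩
    · exact A.cell_mem (Nat.zero_le _) (Nat.zero_le _)
    · obtain ⟨ht, hc⟩ := A.mem_covers.1 hx
      exact A.cell_mem (by simpa using ht) (hc.le ht).le
  have := card_le_card hsub
  rw [card_insert_of_notMem hnot, card_image_of_injOn hinj, card_covers] at this
  omega

lemma edge_start {t : ℕ} (ht : t ≤ A.m) : ∀ j < n,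
    (∃ t' < t, ∃ j', A.lo t' ≤ j' ∧ j' ≤ A.hi t' ∧ A.wire (t' + 1) j' = A.wire t j ∧
      A.above (t' + 1) j' = A.above t j ∧ A.above (t' + 1) (j' + 1) = A.above t (j + 1)) ∨
    (A.wire t j = j ∧ A.above t j = range j ∧ A.above t (j + 1) = range (j + 1)) := by
  induction t with
  | zero =>
    intro j hj
    right
    exact ⟨A.start j hj, A.above_zero hj.le, A.above_zero hj⟩
  | succ t ih =>
    intro j hj
    have hb := A.block t ht
    by_cases hin : A.lo t ≤ j ∧ j ≤ A.hi t
    · left
      exact ⟨t, Nat.lt_succ_self t, j, hin.1, hin.2, rfl, rfl, rfl⟩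
    · have e1 : A.wire (t + 1) j = A.wire t j := A.outside t ht j hj (by omega)
      have e2 : A.above (t + 1) j = A.above t j :=
        A.above_succ ht hj.le (by unfold Cov; omega)
      have e3 : A.above (t + 1) (j + 1) = A.above t (j + 1) :=
        A.above_succ ht hj (by unfold Cov; omega)
      rcases ih (Nat.le_of_succ_le ht) j hj with ⟨t', h1, j', h2⟩ | h
      · left
        refine ⟨t', by omega, j', ?_⟩
        rw [e1, e2, e3]; exact h2
      · right; rw [e1, e2, e3]; exact h

lemma edge_start' (hn : 2 ≤ n) {t : ℕ} (ht : t ≤ A.m) {j : ℕ} (hj : j < n) :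
    ∃ t' < A.m, ∃ j', A.lo t' ≤ j' ∧ j' ≤ A.hi t' ∧ A.wire (t' + 1) j' = A.wire t j ∧
      ((A.cell (t' + 1) j' = A.cell t j ∧ A.cell (t' + 1) (j' + 1) = A.cell t (j + 1)) ∨
       (A.cell (t' + 1) j' = A.cell t (j + 1) ∧ A.cell (t' + 1) (j' + 1) = A.cell t j)) := by
  rcases A.edge_start ht j hj with ⟨t', h1, j', h2, h3, h4, h5, h6⟩ | ⟨h1, h2, h3⟩
  · refine ⟨t', by omega, j', h2, h3, h4, Or.inl ⟨?_, ?_⟩⟩
    · unfold cell; rw [h5]
    · unfold cell; rw [h6]
  · rcases A.edge_start le_rfl (n - 1 - j) (by omega) with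
      ⟨t', g1, j', g2, g3, g4, g5, g6⟩ | ⟨g1, g2, g3⟩
    · refine ⟨t', g1, j', g2, g3, ?_, Or.inr ⟨?_, ?_⟩⟩
      · rw [g4, h1, A.finish _ (by omega)]; omega
      · have : A.cell t (j + 1) = A.cell 0 (j + 1) := by
          unfold cell; rw [h3, A.above_zero hj]
        rw [this, A.cell_glue hj]
        have e : n - (j + 1) = n - 1 - j := by omega
        unfold cell; rw [g5, e]
      · have : A.cell t j = A.cell 0 j := by
          unfold cell; rw [h2, A.above_zero hj.le]
        rw [this, A.cell_glue hj.le]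
        have e : n - j = n - 1 - j + 1 := by omega
        unfold cell; rw [g6, e]
    · exfalso
      have e : n - 1 - j + 1 = n - j := by omega
      rw [e] at g3
      have h0 : (0 : ℕ) ∈ A.above A.m (n - j) := by rw [g3, mem_range]; omega
      rw [A.mem_above_end (Nat.sub_le _ _)] at h0
      rw [A.finish _ (by omega)] at g1
      omega

lemma sum_sides_le (hn : 2 ≤ n) :
    ∑ c ∈ A.cells, (A.sides c).card ≤ ∑ t ∈ range A.m, 2 * (A.hi t - A.lo t + 1) := by
  rw [← card_sigma]
  let J : Finset ((Σ _ : ℕ, ℕ) × ℕ) :=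
    ((range A.m).sigma fun t => Icc (A.lo t) (A.hi t)) ×ˢ range 2
  have hJ : J.card = ∑ t ∈ range A.m, 2 * (A.hi t - A.lo t + 1) := by
    simp only [J, card_product, card_sigma, card_range, Nat.card_Icc]
    rw [sum_mul]
    apply sum_congr rfl
    intro t ht
    have := A.block t (mem_range.1 ht)
    omega
  rw [← hJ]
  let φ : ((Σ _ : ℕ, ℕ) × ℕ) → (Σ _ : Finset (Finset ℕ), ℕ) :=
    fun x => ⟨A.cell (x.1.1 + 1) (x.1.2 + x.2), A.wire (x.1.1 + 1) x.1.2⟩
  refine (card_le_card ?_).trans (card_image_le (s := J) (f := φ))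
  rintro ⟨c, i⟩ hx
  rw [mem_sigma] at hx
  obtain ⟨-, hi⟩ := hx
  obtain ⟨t, j, ht, hj, hc, hw⟩ := A.mem_sides.1 hi
  simp only at hc hw
  obtain ⟨t', h1, j', h2, h3, h4, h5⟩ := A.edge_start' hn ht hj
  rw [mem_image]
  have hcase : A.cell (t' + 1) j' = c ∨ A.cell (t' + 1) (j' + 1) = c := by
    rcases h5 with ⟨h5, h6⟩ | ⟨h5, h6⟩ <;> rcases hc with hc | hc
    · left; rw [h5, hc]
    · right; rw [h6, hc]
    · right; rw [h6, hc]
    · left; rw [h5, hc]
  rcases hcase with h | h
  · refine ⟨(⟨t', j'⟩, 0), ?_, ?_⟩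
    · simp [J, h1, h2, h3]
    · simp only [φ, add_zero, h, h4, hw]
  · refine ⟨(⟨t', j'⟩, 1), ?_, ?_⟩
    · simp [J, h1, h2, h3]
    · simp only [φ, h, h4, hw]

/-! ### Every cell has at least three sides -/

lemma step_same {t j : ℕ} (ht : t < A.m) (h0 : 0 < j) (hjn : j < n) (hc : ¬ A.Cov t j)
    (hcard : (A.sides (A.cell t j)).card ≤ 2) :
    A.wire (t + 1) (j - 1) = A.wire t (j - 1) ∧ A.wire (t + 1) j = A.wire t j := by
  have hb := A.block t ht
  have hcell : A.cell (t + 1) j = A.cell t j :=
    A.cell_const (Nat.le_succ t) ht hjn.le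
      (fun r h1 h2 => by have : r = t := by omega
                         subst this; exact hc)
  have ha : A.wire t (j - 1) ∈ A.sides (A.cell t j) :=
    A.mem_sides.2 ⟨t, j - 1, ht.le, by omega, Or.inr (by congr 1; omega), rfl⟩
  have hbm : A.wire t j ∈ A.sides (A.cell t j) :=
    A.mem_sides.2 ⟨t, j, ht.le, hjn, Or.inl rfl, rfl⟩
  have ha' : A.wire (t + 1) (j - 1) ∈ A.sides (A.cell t j) :=
    A.mem_sides.2 ⟨t + 1, j - 1, ht, by omega,
      Or.inr (by rw [← hcell]; congr 1; omega), rfl⟩
  have hb' : A.wire (t + 1) j ∈ A.sides (A.cell t j) :=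
    A.mem_sides.2 ⟨t + 1, j, ht, hjn, Or.inl hcell, rfl⟩
  have three : ∀ x ∈ A.sides (A.cell t j), x = A.wire t (j - 1) ∨ x = A.wire t j := by
    intro x hx
    by_contra hne
    push Not at hne
    have hne2 : A.wire t (j - 1) ≠ A.wire t j := by
      intro h; have := A.wire_inj ht.le (by omega) hjn h; omega
    have : ({x, A.wire t (j - 1), A.wire t j} : Finset ℕ) ⊆ A.sides (A.cell t j) := by
      intro y hy
      simp only [mem_insert, mem_singleton] at hy
      rcases hy with rfl | rfl | rfl
      · exact hx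
      · exact ha
      · exact hbm
    have h3 := card_le_card this
    rw [card_eq_three.2 ⟨x, _, _, hne.1, hne.2, hne2, rfl⟩] at h3
    omega
  unfold Cov at hc
  constructor
  · rw [A.wire_succ ht (by omega)]
    have h1 := three _ ha'
    rw [A.wire_succ ht (by omega)] at h1
    rcases h1 with h1 | h1
    · exact h1
    · have := A.wire_inj ht.le (A.rev_lt ht (by omega)) hjn h1
      unfold rev at this
      split_ifs at this <;> omega
  · rw [A.wire_succ ht hjn]
    have h1 := three _ hb'
    rw [A.wire_succ ht hjn] at h1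
    rcases h1 with h1 | h1
    · have := A.wire_inj ht.le (A.rev_lt ht hjn) (by omega) h1
      unfold rev at this
      split_ifs at this <;> omega
    · exact h1

lemma interval_same {t s j : ℕ} (hts : t ≤ s) (hs : s ≤ A.m) (h0 : 0 < j) (hjn : j < n)
    (hc : ∀ r, t ≤ r → r < s → ¬ A.Cov r j) (hcard : (A.sides (A.cell t j)).card ≤ 2) :
    A.wire s (j - 1) = A.wire t (j - 1) ∧ A.wire s j = A.wire t j := by
  induction s, hts using Nat.le_induction with
  | base => exact ⟨rfl, rfl⟩
  | succ s hs' ih =>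
    have h1 := ih (Nat.le_of_succ_le hs) (fun r g1 g2 => hc r g1 (by omega))
    have hcell : A.cell s j = A.cell t j :=
      A.cell_const hs' (by omega) hjn.le (fun r g1 g2 => hc r g1 (by omega))
    have h2 := A.step_same (t := s) (j := j) hs h0 hjn (hc s hs' (Nat.lt_succ_self s))
      (by rw [hcell]; exact hcard)
    exact ⟨h2.1.trans h1.1, h2.2.trans h1.2⟩

lemma cov_lt {t j : ℕ} (ht : t < A.m) (hc : A.Cov t j) : A.wire t (j - 1) < A.wire t j := by
  unfold Cov at hc
  exact A.once t ht _ _ (by omega) (by omega) hc.2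

lemma cov_gt {t j : ℕ} (ht : t < A.m) (hc : A.Cov t j) :
    A.wire (t + 1) j < A.wire (t + 1) (j - 1) := by
  unfold Cov at hc
  rw [A.inside t ht j (by omega) hc.2, A.inside t ht (j - 1) (by omega) (by omega)]
  exact A.once t ht _ _ (by omega) (by omega) (by omega)

/-- a gap is closed by some vertex -/
lemma exists_cov {j : ℕ} (h0 : 0 < j) (hjn : j < n) : ∃ r < A.m, A.Cov r j := by
  by_contra h
  push Not at h
  have := A.above_const (t := 0) (s := A.m) (j := j) (Nat.zero_le _) le_rfl hjn.le
    (fun r _ h2 => h r h2)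
  rw [A.above_zero hjn.le] at this
  have h1 : (0 : ℕ) ∈ A.above A.m j := by rw [this, mem_range]; exact h0
  rw [A.mem_above_end hjn.le] at h1
  omega

/-- first closing vertex after `t` -/
lemma first_cov {t s j : ℕ} (hts : t ≤ s) (hc : A.Cov s j) :
    ∃ s', t ≤ s' ∧ s' ≤ s ∧ A.Cov s' j ∧ ∀ r, t ≤ r → r < s' → ¬ A.Cov r j := by
  classical
  have hex : ∃ s', t ≤ s' ∧ A.Cov s' j := ⟨s, hts, hc⟩
  refine ⟨Nat.find hex, (Nat.find_spec hex).1, Nat.find_min' hex ⟨hts, hc⟩,
    (Nat.find_spec hex).2, fun r h1 h2 h3 => Nat.find_min hex h2 ⟨h1, h3⟩⟩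

/-- last closing vertex before `t` -/
lemma last_cov {t s j : ℕ} (hst : s < t) (hc : A.Cov s j) :
    ∃ s', s ≤ s' ∧ s' < t ∧ A.Cov s' j ∧ ∀ r, s' < r → r < t → ¬ A.Cov r j := by
  induction t with
  | zero => omega
  | succ t ih =>
    by_cases hct : A.Cov t j
    · exact ⟨t, by omega, Nat.lt_succ_self t, hct, fun r h1 h2 => by omega⟩
    · have hne : s ≠ t := by rintro rfl; exact hct hc
      obtain ⟨s', h1, h2, h3, h4⟩ := ih (by omega)
      refine ⟨s', h1, by omega, h3, fun r g1 g2 => ?_⟩
      by_cases hr : r = t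
      · subst hr; exact hct
      · exact h4 r g1 (by omega)

lemma three_le_unbounded {j : ℕ} (h0 : 0 < j) (hjn : j < n) :
    3 ≤ (A.sides (A.cell 0 j)).card := by
  by_contra hlt
  have hcard : (A.sides (A.cell 0 j)).card ≤ 2 := by omega
  -- first closing vertex of the gap `j`
  obtain ⟨r0, hr0, hcr0⟩ := A.exists_cov h0 hjn
  obtain ⟨s, -, hs2, hs3, hs4⟩ := A.first_cov (Nat.zero_le r0) hcr0
  have hsm : s < A.m := by omega
  have hw := A.interval_same (Nat.zero_le s) hsm.le h0 hjn hs4 hcard
  rw [A.start _ (by omega), A.start _ hjn] at hw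
  -- last closing vertex of the gap `n - j`
  have h0' : 0 < n - j := by omega
  have hjn' : n - j < n := by omega
  obtain ⟨q0, hq0, hcq0⟩ := A.exists_cov h0' hjn'
  obtain ⟨s', -, hs2', hs3', hs4'⟩ := A.last_cov hq0 hcq0
  have hcell' : A.cell A.m (n - j) = A.cell (s' + 1) (n - j) :=
    A.cell_const (by omega) le_rfl hjn'.le (fun r g1 g2 => hs4' r (by omega) g2)
  have hcard' : (A.sides (A.cell (s' + 1) (n - j))).card ≤ 2 := by
    rw [← hcell', ← A.cell_glue hjn.le]; exact hcard
  have hw' := A.interval_same (t := s' + 1) (s := A.m) (by omega) le_rfl h0' hjn'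
    (fun r g1 g2 => hs4' r (by omega) g2) hcard'
  rw [A.finish _ (by omega), A.finish _ (by omega)] at hw'
  have e1 : n - 1 - (n - j - 1) = j := by omega
  have e2 : n - 1 - (n - j) = j - 1 := by omega
  rw [e1, e2] at hw'
  -- the two vertices coincide
  have hss : s = s' := by
    rcases lt_trichotomy s s' with hlt | heq | hgt
    · exfalso
      -- after `s` the line `j` is above the line `j-1`
      have hb := A.block s hsm
      have hinv : A.Inv (s + 1) (j - 1) j := by
        obtain ⟨c1, c2⟩ := hs3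
        refine ⟨A.lo s + A.hi s - j, A.lo s + A.hi s - (j - 1), by omega, by omega, ?_, ?_⟩
        · rw [A.inside s hsm _ (by omega) (by omega)]
          have : A.lo s + A.hi s - (A.lo s + A.hi s - j) = j := by omega
          rw [this]; exact hw.2
        · rw [A.inside s hsm _ (by omega) (by omega)]
          have : A.lo s + A.hi s - (A.lo s + A.hi s - (j - 1)) = j - 1 := by omega
          rw [this]; exact hw.1
      have hinv' := A.inv_mono (t := s + 1) (s := s') (by omega) (by omega) (by omega) hinv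
      -- but just before `s'` they are in the other order
      obtain ⟨c1, c2⟩ := hs3'
      have hb' := A.block s' hs2'
      have g1 : A.wire s' (A.lo s' + A.hi s' - (n - j)) = j - 1 := by
        have := A.inside s' hs2' (n - j) (by omega) c2
        rw [← this]; exact hw'.2.symm
      have g2 : A.wire s' (A.lo s' + A.hi s' - (n - j - 1)) = j := by
        have := A.inside s' hs2' (n - j - 1) (by omega) (by omega)
        rw [← this]; exact hw'.1.symm
      have := A.not_inv (t := s') hs2'.le
        (p := A.lo s' + A.hi s' - (n - j)) (q := A.lo s' + A.hi s' - (n - j - 1))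
        (by omega) (by omega)
      rw [g1, g2] at this
      exact this hinv'
    · exact heq
    · exfalso
      -- after `s'` the line `j` is above the line `j-1`
      have hinv : A.Inv (s' + 1) (j - 1) j := by
        refine ⟨n - j - 1, n - j, by omega, by omega, ?_, ?_⟩
        · exact hw'.1.symm
        · exact hw'.2.symm
      have hinv' := A.inv_mono (t := s' + 1) (s := s) (by omega) (by omega) (by omega) hinv
      have := A.not_inv (t := s) hsm.le (p := j - 1) (q := j) (by omega) hjn
      rw [hw.1, hw.2] at this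
      exact this hinv'
  subst hss
  have hb := A.block s hsm
  have hpen := A.notPencil s hsm
  obtain ⟨c1, c2⟩ := hs3
  obtain ⟨d1, d2⟩ := hs3'
  -- position of the line `j-1` after the vertex
  have hpos : A.lo s + A.hi s = n - 1 := by
    have g1 : A.wire (s + 1) (A.lo s + A.hi s - (j - 1)) = j - 1 := by
      rw [A.inside s hsm _ (by omega) (by omega)]
      have : A.lo s + A.hi s - (A.lo s + A.hi s - (j - 1)) = j - 1 := by omega
      rw [this]; exact hw.1
    have := A.wire_inj (t := s + 1) (by omega) (by omega) (by omega) (g1.trans hw'.2)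
    omega
  have hlo : 0 < A.lo s := by omega
  -- the line in position 0 crosses neither of them
  have hx1 : A.wire s 0 ∈ A.above s j := (A.wire_mem_above hsm.le (by omega) hjn.le).2 h0
  rw [A.above_const (Nat.zero_le s) hsm.le hjn.le hs4, A.above_zero hjn.le, mem_range] at hx1
  have hx2 : A.wire (s + 1) 0 ∈ A.above (s + 1) (n - j) :=
    (A.wire_mem_above hsm (by omega) hjn'.le).2 h0'
  rw [← A.above_const (t := s + 1) (s := A.m) hsm le_rfl hjn'.le
    (fun r g1 g2 => hs4' r (by omega) g2), A.mem_above_end hjn'.le,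
    A.outside s hsm 0 (by omega) (Or.inl hlo)] at hx2
  omega

lemma three_le_top (hn : 3 ≤ n) : 3 ≤ (A.sides (A.cell 0 0)).card := by
  by_contra hlt
  have hcell : ∀ t ≤ A.m, A.cell t 0 = A.cell 0 0 := fun t ht =>
    A.cell_const (Nat.zero_le _) ht (Nat.zero_le _) (fun r _ _ => by unfold Cov; omega)
  have hcelln : ∀ t ≤ A.m, A.cell t n = A.cell 0 0 := by
    intro t ht
    have h1 : A.cell t n = A.cell 0 n :=
      A.cell_const (Nat.zero_le _) ht le_rfl (fun r _ h2 => by
        have := A.block r (by omega); unfold Cov; omega)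
    rw [h1, A.cell_glue le_rfl, Nat.sub_self]
    exact hcell _ le_rfl
  have htop : ∀ t ≤ A.m, A.wire t 0 ∈ A.sides (A.cell 0 0) := fun t ht =>
    A.mem_sides.2 ⟨t, 0, ht, by omega, Or.inl (hcell t ht), rfl⟩
  have hbot : ∀ t ≤ A.m, A.wire t (n - 1) ∈ A.sides (A.cell 0 0) := fun t ht =>
    A.mem_sides.2 ⟨t, n - 1, ht, by omega, Or.inr (by
      have : n - 1 + 1 = n := by omega
      rw [this]; exact hcelln t ht), rfl⟩
  have three : ∀ x ∈ A.sides (A.cell 0 0), x = 0 ∨ x = n - 1 := by
    intro x hx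
    by_contra hne
    push Not at hne
    have g0 : (0 : ℕ) ∈ A.sides (A.cell 0 0) := by
      have := htop 0 (Nat.zero_le _); rwa [A.start 0 (by omega)] at this
    have g1 : n - 1 ∈ A.sides (A.cell 0 0) := by
      have := hbot 0 (Nat.zero_le _); rwa [A.start (n - 1) (by omega)] at this
    have hsub : ({x, 0, n - 1} : Finset ℕ) ⊆ A.sides (A.cell 0 0) := by
      intro y hy
      simp only [mem_insert, mem_singleton] at hy
      rcases hy with rfl | rfl | rfl
      · exact hx
      · exact g0
      · exact g1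
    have h3 := card_le_card hsub
    rw [card_eq_three.2 ⟨x, 0, n - 1, hne.1, hne.2, by omega, rfl⟩] at h3
    omega
  -- at every time the top line is `0`: otherwise a pencil
  have key : ∀ t ≤ A.m, A.wire t 0 = 0 := by
    intro t ht
    induction t with
    | zero => exact A.start 0 (by omega)
    | succ t ih =>
      have h1 := ih (by omega)
      have htm : t < A.m := by omega
      have hb := A.block t htm
      have hp := A.notPencil t htm
      rcases three _ (htop (t + 1) ht) with h2 | h2
      · exact h2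
      · exfalso
        rw [A.wire_succ htm (by omega)] at h2
        have h3 : A.wire t (n - 1) = n - 1 := by
          rcases three _ (hbot t htm.le) with h3 | h3
          · have := A.wire_inj htm.le (by omega) (by omega) (h3.trans h1.symm)
            omega
          · exact h3
        have := A.wire_inj htm.le (A.rev_lt htm (by omega)) (by omega) (h2.trans h3.symm)
        unfold rev at this
        split_ifs at this <;> omega
  have := key A.m le_rfl
  rw [A.finish 0 (by omega)] at this
  omega

lemma three_le_sides (hn : 3 ≤ n) {c : Finset (Finset ℕ)} (hc : c ∈ A.cells) :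
    3 ≤ (A.sides c).card := by
  unfold cells at hc
  rw [mem_image] at hc
  obtain ⟨⟨t, j⟩, hx, rfl⟩ := hc
  simp only [mem_product, mem_range] at hx
  obtain ⟨ht, hj⟩ := hx
  have ht : t ≤ A.m := by omega
  have hj : j ≤ n := by omega
  simp only
  rcases Nat.eq_zero_or_pos j with rfl | h0
  · rw [A.cell_const (t := 0) (Nat.zero_le _) ht (Nat.zero_le _)
      (fun r _ _ => by unfold Cov; omega)]
    exact A.three_le_top hn
  rcases Nat.lt_or_ge j n with hjn | hjn
  swap
  · have hjn : j = n := by omega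
    subst hjn
    rw [A.cell_const (t := 0) (Nat.zero_le _) ht le_rfl (fun r _ h2 => by
        have := A.block r (by omega); unfold Cov; omega), A.cell_glue le_rfl, Nat.sub_self,
      A.cell_const (t := 0) (Nat.zero_le _) le_rfl (Nat.zero_le _)
      (fun r _ _ => by unfold Cov; omega)]
    exact A.three_le_top hn
  by_cases hright : ∃ r, t ≤ r ∧ r < A.m ∧ A.Cov r j
  swap
  · push Not at hright
    rw [← A.cell_const ht le_rfl hjn.le (fun r h1 h2 => hright r h1 h2)]
    have := A.cell_glue (j := n - j) (Nat.sub_le _ _)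
    have e : n - (n - j) = j := by omega
    rw [e] at this
    rw [← this]
    exact A.three_le_unbounded (by omega) (by omega)
  by_cases hleft : ∃ r, r < t ∧ A.Cov r j
  swap
  · push Not at hleft
    rw [A.cell_const (t := 0) (Nat.zero_le _) ht hjn.le (fun r _ h2 => hleft r h2)]
    exact A.three_le_unbounded h0 hjn
  by_contra hlt
  obtain ⟨r1, h1, h2, h3⟩ := hright
  obtain ⟨s1, g1, g2, g3, g4⟩ := A.first_cov h1 h3
  obtain ⟨r2, h4, h5⟩ := hleft
  obtain ⟨s0, k1, k2, k3, k4⟩ := A.last_cov h4 h5
  have hcell : A.cell t j = A.cell (s0 + 1) j :=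
    A.cell_const (by omega) ht hjn.le (fun r q1 q2 => k4 r (by omega) q2)
  have hcard : (A.sides (A.cell (s0 + 1) j)).card ≤ 2 := by rw [← hcell]; omega
  have hw := A.interval_same (t := s0 + 1) (s := s1) (by omega) (by omega) h0 hjn
    (fun r q1 q2 => by
      by_cases hr : r < t
      · exact k4 r (by omega) hr
      · exact g4 r (by omega) q2) hcard
  have c1 := A.cov_lt (by omega) g3
  have c2 := A.cov_gt (by omega) k3
  omega

/-! ### The number of vertices -/

open Classical in
/-- the pairs of pseudolines which have crossed before time `t` -/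
noncomputable def invSet (t : ℕ) : Finset (Σ _ : ℕ, ℕ) :=
  ((range n).sigma fun b => range b).filter fun x => A.Inv t x.2 x.1

lemma card_invSet_succ {t : ℕ} (ht : t < A.m) :
    (A.invSet t).card + (A.hi t - A.lo t) ≤ (A.invSet (t + 1)).card := by
  classical
  have hb := A.block t ht
  let N : Finset (Σ _ : ℕ, ℕ) :=
    (Ioc (A.lo t) (A.hi t)).image fun q => ⟨A.wire t q, A.wire t (A.lo t)⟩
  have hN : N.card = A.hi t - A.lo t := by
    rw [card_image_of_injOn, Nat.card_Ioc]
    intro p hp q hq h
    simp only [coe_Ioc, Set.mem_Ioc] at hp hq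
    simp only [Sigma.mk.injEq, heq_eq_eq, and_true] at h
    exact A.wire_inj ht.le (by omega) (by omega) h
  have hdisj : Disjoint (A.invSet t) N := by
    rw [disjoint_left]
    rintro ⟨b, a⟩ h1 h2
    simp only [N, mem_image, mem_Ioc] at h2
    obtain ⟨q, hq, h2⟩ := h2
    simp only [Sigma.mk.injEq, heq_eq_eq] at h2
    obtain ⟨rfl, rfl⟩ := h2
    simp only [invSet, mem_filter] at h1
    exact A.not_inv ht.le hq.1 (by omega) h1.2
  have hsub : A.invSet t ∪ N ⊆ A.invSet (t + 1) := by
    rintro ⟨b, a⟩ h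
    rw [mem_union] at h
    rcases h with h | h
    · simp only [invSet, mem_filter, mem_sigma, mem_range] at h ⊢
      exact ⟨h.1, A.inv_succ ht h.1.2 h.2⟩
    · simp only [N, mem_image, mem_Ioc] at h
      obtain ⟨q, hq, h2⟩ := h
      simp only [Sigma.mk.injEq, heq_eq_eq] at h2
      obtain ⟨rfl, rfl⟩ := h2
      simp only [invSet, mem_filter, mem_sigma, mem_range]
      refine ⟨⟨A.wire_lt ht.le (by omega), A.once t ht _ _ le_rfl hq.1 hq.2⟩, ?_⟩
      refine ⟨A.lo t + A.hi t - q, A.hi t, by omega, hb.2, ?_, ?_⟩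
      · rw [A.inside t ht _ (by omega) (by omega)]; congr 1; omega
      · rw [A.inside t ht _ (by omega) (by omega)]; congr 1; omega
  have := card_le_card hsub
  rw [card_union_of_disjoint hdisj, hN] at this
  exact this

lemma sum_block_le : 2 * ∑ t ∈ range A.m, (A.hi t - A.lo t) ≤ n * (n - 1) := by
  classical
  have key : ∀ s ≤ A.m, ∑ t ∈ range s, (A.hi t - A.lo t) ≤ (A.invSet s).card := by
    intro s hs
    induction s with
    | zero => simp
    | succ s ih =>
      rw [sum_range_succ]
      have := A.card_invSet_succ (t := s) (by omega)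
      have := ih (by omega)
      omega
  have h1 := key A.m le_rfl
  have h2 : (A.invSet A.m).card ≤ ∑ b ∈ range n, b := by
    have hsub : A.invSet A.m ⊆ (range n).sigma fun b => range b :=
      fun x hx => (mem_filter.1 hx).1
    refine (card_le_card hsub).trans ?_
    rw [card_sigma]
    simp
  have h3 := Finset.sum_range_id_mul_two n
  omega

/-- upper bound for the number of `k`-sided cells -/
theorem upper (hn : 3 ≤ n) (k : ℕ) :
    2 * (k - 3) * A.numCells k + 6 ≤ n * (n - 1) := by
  have h1 := A.sum_sides_le (by omega)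
  have h2 := A.card_cells_ge
  have h3 := A.sum_block_le
  have h4 : 3 * A.cells.card + (k - 3) * A.numCells k ≤ ∑ c ∈ A.cells, (A.sides c).card := by
    have : ∀ c ∈ A.cells, 3 + (if (A.sides c).card = k then (k - 3) else 0)
        ≤ (A.sides c).card := by
      intro c hc
      have := A.three_le_sides hn hc
      split_ifs <;> omega
    have h5 := sum_le_sum this
    rw [sum_add_distrib, sum_const, smul_eq_mul, ← sum_filter, sum_const, smul_eq_mul] at h5
    unfold numCells
    rw [mul_comm 3, mul_comm (k - 3)]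
    exact h5
  have h6 : ∑ t ∈ range A.m, 2 * (A.hi t - A.lo t + 1)
      ≤ 4 * ∑ t ∈ range A.m, (A.hi t - A.lo t) := by
    rw [mul_sum]
    apply sum_le_sum
    intro t ht
    have := A.block t (mem_range.1 ht)
    omega
  have h7 : 2 * (k - 3) * A.numCells k = 2 * ((k - 3) * A.numCells k) := by ring
  rw [h7]
  omega

end Arrangement

end Pool.Agent.Helper888
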