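import Pool.Agent.Helper888_Pseudo.Bounded

/-!
# Simple wiring diagrams given by words in adjacent transpositions
-/

namespace Pool.Agent.Helper888

open Finset

/-- exchange of the entries in positions `g-1` and `g` -/
def swp (g : ℕ) (f : ℕ → ℕ) : ℕ → ℕ :=
  fun p => if p + 1 = g then f g else if p = g then f (g - 1) else f p

/-- apply a word -/
def exec : List ℕ → (ℕ → ℕ) → (ℕ → ℕ)
  | [], f => f
  | g :: w, f => exec w (swp g f)

/-- every letter of the word exchanges two entries which are in increasing order -/
def steps : List ℕ → (ℕ → ℕ) → Prop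
  | [], _ => True
  | g :: w, f => (1 ≤ g ∧ f (g - 1) < f g) ∧ steps w (swp g f)

lemma exec_append (u v : List ℕ) : ∀ f, exec (u ++ v) f = exec v (exec u f) := by
  induction u with
  | nil => intro f; rfl
  | cons g u ih => intro f; exact ih _

lemma steps_append (u v : List ℕ) : ∀ f, steps (u ++ v) f ↔ steps u f ∧ steps v (exec u f) := by
  induction u with
  | nil => intro f; simp [steps, exec]
  | cons g u ih =>
    intro f
    simp only [List.cons_append, steps, exec, ih, and_assoc]

/-- `w` is a reduced word for the reversal of `n` positions -/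
structure Good (n : ℕ) (w : List ℕ) : Prop where
  letters : ∀ g ∈ w, 1 ≤ g ∧ g < n
  steps : ∀ F : ℕ → ℕ, StrictMonoOn F (Set.Iio n) → steps w F
  exec : ∀ (F : ℕ → ℕ) (p : ℕ), exec w F p = if p < n then F (n - 1 - p) else F p

lemma take_succ' (w : List ℕ) {t : ℕ} (ht : t < w.length) :
    w.take (t + 1) = w.take t ++ [w.getD t 0] := by
  rw [List.getD_eq_getElem w 0 ht, List.take_append_getElem ht]

lemma drop_eq' (w : List ℕ) {t : ℕ} (ht : t < w.length) :
    w.drop t = w.getD t 0 :: w.drop (t + 1) := by
  rw [List.getD_eq_getElem w 0 ht]; exact List.drop_eq_getElem_cons ht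

/-- the arrangement given by a word -/
def ofWord (n : ℕ) (hn : 3 ≤ n) (w : List ℕ) (h : Good n w) : Arrangement n := by
  have hmem : ∀ t < w.length, 1 ≤ w.getD t 0 ∧ w.getD t 0 < n := by
    intro t ht
    rw [List.getD_eq_getElem w 0 ht]; exact h.letters _ (List.getElem_mem ht)
  have hstep : ∀ t < w.length, exec (w.take t) id (w.getD t 0 - 1)
      < exec (w.take t) id (w.getD t 0) := by
    intro t ht
    have h1 := h.steps id (fun a _ b _ hab => hab)
    rw [← List.take_append_drop t w, steps_append, drop_eq' w ht] at h1
    exact h1.2.1.2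
  have hsucc : ∀ t < w.length, exec (w.take (t + 1)) id
      = swp (w.getD t 0) (exec (w.take t) id) := by
    intro t ht
    rw [take_succ' w ht, exec_append]; rfl
  exact
  { m := w.length
    lo := fun t => w.getD t 0 - 1
    hi := fun t => w.getD t 0
    wire := fun t => exec (w.take t) id
    start := fun p _ => by simp [Pool.Agent.Helper888.exec]
    finish := fun p hp => by
      rw [List.take_length, h.exec, if_pos hp, id]
    block := fun t ht => by have := hmem t ht; omega
    inside := fun t ht p h1 h2 => by
      have := hmem t ht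
      rw [hsucc t ht]
      unfold swp
      by_cases hp : p = w.getD t 0
      · subst hp
        rw [if_neg (by omega), if_pos rfl]
        congr 1; omega
      · rw [if_pos (by omega)]
        congr 1; omega
    outside := fun t ht p hp h1 => by
      have := hmem t ht
      rw [hsucc t ht]
      unfold swp
      rw [if_neg (by omega), if_neg (by omega)]
    once := fun t ht p q h1 h2 h3 => by
      have := hmem t ht
      have e1 : p = w.getD t 0 - 1 := by omega
      have e2 : q = w.getD t 0 := by omega
      rw [e1, e2]; exact hstep t ht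
    notPencil := fun t ht => by have := hmem t ht; omega }

/-- the number of touching vertices of the cell which starts with the letter `g` in front of the
word `l`, if this cell is closed in `l` -/
def touch (g : ℕ) : List ℕ → Option ℕ
  | [] => none
  | x :: l => if x = g then some 0
      else (touch g l).map (fun r => r + if x + 1 = g ∨ x = g + 1 then 1 else 0)

/-- the number of cells with `k` sides which are closed inside the word `w`, starting at one of
the letters of `u` in `u ++ z` -/
def cntIn (k : ℕ) : List ℕ → List ℕ → ℕ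
  | [], _ => 0
  | g :: u, z => (if touch g (u ++ z) = some (k - 2) then 1 else 0) + cntIn k u z

/-- the number of cells with `k` sides which are closed inside the word `w` -/
def cnt (k : ℕ) (w : List ℕ) : ℕ := cntIn k w []

lemma touch_append {g : ℕ} {l z : List ℕ} {r : ℕ} (h : touch g l = some r) :
    touch g (l ++ z) = some r := by
  induction l generalizing r with
  | nil => simp [touch] at h
  | cons x l ih =>
    simp only [touch, List.cons_append] at h ⊢
    by_cases hx : x = g
    · rw [if_pos hx] at h ⊢; exact h
    · rw [if_neg hx] at h ⊢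
      rw [Option.map_eq_some_iff] at h ⊢
      obtain ⟨a, ha, h⟩ := h
      exact ⟨a, ih ha, h⟩

lemma cntIn_mono (k : ℕ) (u z z' : List ℕ) : cntIn k u z ≤ cntIn k u (z ++ z') := by
  induction u with
  | nil => simp [cntIn]
  | cons g u ih =>
    simp only [cntIn]
    have : (if touch g (u ++ z) = some (k - 2) then 1 else 0)
        ≤ (if touch g (u ++ (z ++ z')) = some (k - 2) then 1 else 0) := by
      split_ifs with h1 h2 h2
      · exact le_rfl
      · exfalso; apply h2; rw [← List.append_assoc]; exact touch_append h1
      · exact Nat.zero_le _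
      · exact le_rfl
    omega

lemma cntIn_append (k : ℕ) (u v z : List ℕ) :
    cntIn k (u ++ v) z = cntIn k u (v ++ z) + cntIn k v z := by
  induction u with
  | nil => simp [cntIn]
  | cons g u ih =>
    simp only [List.cons_append, cntIn, ih, List.append_assoc]
    ring

lemma cnt_append (k : ℕ) (u v : List ℕ) : cntIn k u v + cnt k v = cnt k (u ++ v) := by
  unfold cnt; rw [cntIn_append, List.append_nil]

lemma touch_spec {g : ℕ} {l : List ℕ} {r : ℕ} (h : touch g l = some r) :
    ∃ i < l.length, l.getD i 0 = g ∧ (∀ i' < i, l.getD i' 0 ≠ g) ∧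
      ∑ i' ∈ range i, (if l.getD i' 0 + 1 = g ∨ l.getD i' 0 = g + 1 then 1 else 0) = r := by
  induction l generalizing r with
  | nil => simp [touch] at h
  | cons x l ih =>
    simp only [touch] at h
    by_cases hx : x = g
    · rw [if_pos hx] at h
      refine ⟨0, by simp, by simpa using hx, fun i' hi' => by omega, ?_⟩
      simpa using h
    · rw [if_neg hx, Option.map_eq_some_iff] at h
      obtain ⟨a, ha, h⟩ := h
      obtain ⟨i, h1, h2, h3, h4⟩ := ih ha
      refine ⟨i + 1, by simpa using h1, by simpa using h2, ?_, ?_⟩
      · intro i' hi'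
        cases i' with
        | zero => simpa using hx
        | succ i' => simpa using h3 i' (by omega)
      · rw [sum_range_succ']
        simp only [List.getD_cons_succ, List.getD_cons_zero]
        rw [h4, h]

lemma cnt_eq (k : ℕ) (w : List ℕ) : cnt k w = ∑ t ∈ range w.length,
    (if touch (w.getD t 0) (w.drop (t + 1)) = some (k - 2) then 1 else 0) := by
  unfold cnt
  induction w with
  | nil => simp [cntIn]
  | cons g w ih =>
    simp only [cntIn, List.length_cons]
    rw [sum_range_succ', ih, add_comm]
    simp

theorem cnt_le (n : ℕ) (hn : 3 ≤ n) (w : List ℕ) (h : Good n w) (k : ℕ) (hk : 2 ≤ k) :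
    cnt k w ≤ (ofWord n hn w h).numCells k := by
  classical
  have hmem : ∀ t < w.length, 1 ≤ w.getD t 0 ∧ w.getD t 0 < n := by
    intro t ht
    rw [List.getD_eq_getElem w 0 ht]; exact h.letters _ (List.getElem_mem ht)
  let T0 := (range w.length).filter
    (fun t => touch (w.getD t 0) (w.drop (t + 1)) = some (k - 2))
  have hT0 : cnt k w = T0.card := by rw [cnt_eq, card_filter]
  let T : Finset (Σ _ : ℕ, ℕ) := T0.image fun t => ⟨t, w.getD t 0⟩
  have hT : T.card = T0.card := by
    apply card_image_of_injective
    intro a b hab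
    simp only [Sigma.mk.injEq] at hab
    exact hab.1
  rw [hT0, ← hT]
  apply Arrangement.numCells_ge
  intro x hx
  simp only [T, T0, mem_image, mem_filter, mem_range] at hx
  obtain ⟨t, ⟨ht, htouch⟩, rfl⟩ := hx
  obtain ⟨i, h1, h2, h3, h4⟩ := touch_spec htouch
  have hget : ∀ i', (w.drop (t + 1)).getD i' 0 = w.getD (t + 1 + i') 0 := by
    intro i'; simp [List.getD_eq_getElem?_getD, List.getElem?_drop]
  rw [List.length_drop] at h1
  have hm := hmem t ht
  refine ⟨t + 1 + i, ?_, ?_, ?_, ?_, ?_, ?_⟩
  · show t < t + 1 + i; omega
  · show t + 1 + i < w.length; omega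
  · show w.getD t 0 - 1 < w.getD t 0 ∧ w.getD t 0 ≤ w.getD t 0; omega
  · show w.getD (t + 1 + i) 0 - 1 < w.getD t 0 ∧ w.getD t 0 ≤ w.getD (t + 1 + i) 0
    rw [← hget, h2]; omega
  · intro r hr1 hr2 hc
    have hr1' : t < r := hr1
    have hc' : w.getD r 0 - 1 < w.getD t 0 ∧ w.getD t 0 ≤ w.getD r 0 := hc
    have := hmem r (by omega)
    apply h3 (r - (t + 1)) (by omega)
    rw [hget]
    have e : t + 1 + (r - (t + 1)) = r := by omega
    rw [e]; omega
  · show 2 + ∑ s ∈ Ico (t + 1) (t + 1 + i), ((if w.getD s 0 + 1 = w.getD t 0 then 1 else 0) +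
        (if w.getD s 0 - 1 = w.getD t 0 then 1 else 0)) = k
    rw [sum_Ico_eq_sum_range]
    have e : t + 1 + i - (t + 1) = i := by omega
    rw [e]
    have : ∑ k ∈ range i, ((if w.getD (t + 1 + k) 0 + 1 = w.getD t 0 then 1 else 0) +
        (if w.getD (t + 1 + k) 0 - 1 = w.getD t 0 then 1 else 0)) = k - 2 := by
      rw [← h4]
      apply sum_congr rfl
      intro i' hi'
      rw [mem_range] at hi'
      rw [hget]
      have := hmem (t + 1 + i') (by omega)
      split_ifs <;> omega
    rw [this]; omega

end Pool.Agent.Helper888
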